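import Mathlib

set_option autoImplicit false

open Set Filter Cardinal

namespace Pool.Agent.Lib.MP_491cc4_lc

/-- completeness of a filter, in indexed form -/
def Cpl (c : Cardinal.{0}) {X : Type} (F : Filter X) : Prop :=
  ∀ (ι : Type) (p : ι → X → Prop), Cardinal.mk ι < c → (∀ i, ∀ᶠ x in F, p i x) →
    ∀ᶠ x in F, ∀ i, p i x

theorem Cpl.ball {c : Cardinal.{0}} {X : Type} {F : Filter X} (h : Cpl c F) {ι : Type}
    (S : Set ι) (p : ι → X → Prop) (hS : Cardinal.mk S < c)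
    (hp : ∀ i ∈ S, ∀ᶠ x in F, p i x) : ∀ᶠ x in F, ∀ i ∈ S, p i x := by
  have := h S (fun i x => p i.1 x) hS (fun i => hp i.1 i.2)
  filter_upwards [this] with x hx i hi
  exact hx ⟨i, hi⟩

theorem cpl_of_sInter {c : Cardinal.{0}} {X : Type} {F : Filter X}
    (h : ∀ S : Set (Set X), Cardinal.mk S < c → (∀ s ∈ S, s ∈ F) → ⋂₀ S ∈ F) : Cpl c F := by
  intro ι p hι hp
  have := h (Set.range (fun i => {x | p i x})) (lt_of_le_of_lt Cardinal.mk_range_le hι)
    (by rintro _ ⟨i, rfl⟩; exact hp i)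
  rw [Set.sInter_range] at this
  filter_upwards [this] with x hx i
  exact Set.mem_iInter.1 hx i

theorem Cpl.map {c : Cardinal.{0}} {X Y : Type} {F : Filter X} (h : Cpl c F) (r : X → Y) :
    Cpl c (Filter.map r F) := by
  intro ι p hι hp
  exact h ι (fun i x => p i (r x)) hι hp

/-- a function with small range is almost everywhere constant -/
theorem Cpl.const {c : Cardinal.{0}} {X Y : Type} {V : Ultrafilter X}
    (h : Cpl c (V : Filter X)) (r : X → Y) (S : Set Y) (hS : Cardinal.mk S < c)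
    (hr : ∀ᶠ x in V, r x ∈ S) : ∃ y, ∀ᶠ x in V, r x = y := by
  by_contra hcon
  push Not at hcon
  have h1 : ∀ᶠ x in V, ∀ y ∈ S, r x ≠ y := by
    refine h.ball S (fun y x => r x ≠ y) hS (fun y _ => ?_)
    exact hcon y
  obtain ⟨x, hx1, hx2⟩ := (hr.and h1).exists
  exact hx2 _ hx1 rfl

/-- a positive set is a small union only if a piece is positive -/
theorem Cpl.freq {c : Cardinal.{0}} {X Y : Type} {F : Filter X}
    (h : Cpl c F) (r : X → Y) (hY : Cardinal.mk Y < c) {p : X → Prop}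
    (hp : ∃ᶠ x in F, p x) : ∃ y, ∃ᶠ x in F, p x ∧ r x = y := by
  by_contra hcon
  push Not at hcon
  have h1 := h Y (fun y x => p x → r x ≠ y) hY (fun y => by
    have := hcon y
    simpa [Filter.not_frequently] using this)
  obtain ⟨x, hx1, hx2⟩ := (hp.and_eventually h1).exists
  exact hx2 _ hx1 rfl

variable {K : Type} [LinearOrder K]

/-- normal measure on the well order `K` -/
structure NM (U : Ultrafilter K) : Prop where
  unc : Cardinal.aleph0 < Cardinal.mk K
  seg : ∀ x : K, Cardinal.mk (Set.Iio x) < Cardinal.mk K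
  cpl : Cpl (Cardinal.mk K) (U : Filter K)
  unif : ∀ s : Set K, s ∈ U → Cardinal.mk s = Cardinal.mk K
  norm : ∀ f : K → K, {x | f x < x} ∈ U → ∃ y : K, {x | f x = y} ∈ U

namespace NM

variable {U : Ultrafilter K}

theorem iic (h : NM U) (x : K) : Cardinal.mk (Set.Iic x) < Cardinal.mk K := by
  rw [← Set.Iio_insert]
  refine lt_of_le_of_lt Cardinal.mk_insert_le ?_
  exact Cardinal.add_lt_of_lt h.unc.le (h.seg x) (lt_trans Cardinal.one_lt_aleph0 h.unc)

theorem tail (h : NM U) (x : K) : ∀ᶠ a in U, x < a := by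
  by_contra hc
  have h1 : Set.Iic x ∈ U := by
    have := Ultrafilter.eventually_not.2 hc
    filter_upwards [this] with a ha
    exact not_lt.1 ha
  exact (h.iic x).ne (h.unif _ h1)

theorem bdd (h : NM U) (S : Set K) (hS : Cardinal.mk S < Cardinal.mk K) :
    ∃ b, ∀ a ∈ S, a < b :=
  (h.cpl.ball S (fun a x => a < x) hS (fun a _ => h.tail a)).exists

theorem two_pow (h : NM U) {μ : Cardinal.{0}} (hμ : μ < Cardinal.mk K) :
    2 ^ μ < Cardinal.mk K := by
  by_contra hc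
  push Not at hc
  obtain ⟨ι, rfl⟩ : ∃ ι : Type, Cardinal.mk ι = μ := ⟨μ.out, Cardinal.mk_out μ⟩
  rw [← Cardinal.mk_set] at hc
  obtain ⟨e⟩ := Cardinal.le_def _ _ |>.1 hc
  have h1 : ∀ i : ι, ∀ᶠ x in U, (i ∈ e x ↔ {y | i ∈ e y} ∈ U) := by
    intro i
    by_cases hi : {y | i ∈ e y} ∈ U
    · filter_upwards [hi] with x hx
      exact ⟨fun _ => hi, fun _ => hx⟩
    · have := Ultrafilter.compl_mem_iff_notMem.2 hi
      filter_upwards [this] with x hx
      exact ⟨fun h' => absurd h' hx, fun h' => absurd h' hi⟩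
  have h2 := h.cpl ι (fun i x => (i ∈ e x ↔ {y | i ∈ e y} ∈ U)) hμ h1
  obtain ⟨x, hx⟩ := h2.exists
  obtain ⟨y, hy, hxy⟩ := (h2.and (h.tail x)).exists
  have : e x = e y := by
    ext i
    rw [hx i, hy i]
  exact hxy.ne (e.injective this)

theorem mk_set (h : NM U) {ι : Type} (hι : Cardinal.mk ι < Cardinal.mk K) :
    Cardinal.mk (Set ι) < Cardinal.mk K := by
  rw [Cardinal.mk_set]; exact h.two_pow hι

theorem mk_prod (h : NM U) {ι ι' : Type} (hι : Cardinal.mk ι < Cardinal.mk K)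
    (hι' : Cardinal.mk ι' < Cardinal.mk K) : Cardinal.mk (ι × ι') < Cardinal.mk K := by
  rw [Cardinal.mk_prod, Cardinal.lift_id, Cardinal.lift_id]
  exact Cardinal.mul_lt_of_lt h.unc.le hι hι'

theorem mk_subsets (h : NM U) {S : Set K} (hS : Cardinal.mk S < Cardinal.mk K) :
    Cardinal.mk {s : Set K | s ⊆ S} < Cardinal.mk K := by
  have : Cardinal.mk {s : Set K | s ⊆ S} = 2 ^ Cardinal.mk S := Cardinal.mk_powerset S
  rw [this]; exact h.two_pow hS

theorem mk_fun (h : NM U) {ι ι' : Type} (hι : Cardinal.mk ι < Cardinal.mk K)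
    (hι' : Cardinal.mk ι' < Cardinal.mk K) : Cardinal.mk (ι → ι') < Cardinal.mk K := by
  refine lt_of_le_of_lt ?_ (h.mk_set (h.mk_prod hι hι'))
  refine Cardinal.mk_le_of_injective (f := fun g => {p : ι × ι' | g p.1 = p.2}) ?_
  intro g g' hg
  funext i
  have : (i, g i) ∈ {p : ι × ι' | g p.1 = p.2} := rfl
  have h2 : (i, g i) ∈ {p : ι × ι' | g' p.1 = p.2} := by
    have hg' : {p : ι × ι' | g p.1 = p.2} = {p : ι × ι' | g' p.1 = p.2} := hg
    rw [← hg']; exact this
  exact (show g' i = g i from h2).symm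

/-- diagonal intersections -/
theorem diag (h : NM U) (p : K → K → Prop) (hp : ∀ a, ∀ᶠ x in U, p a x) :
    ∀ᶠ x in U, ∀ a < x, p a x := by
  classical
  by_contra hc
  have h1 := Ultrafilter.eventually_not.2 hc
  have h2 : ∀ x : K, ∃ a : K, (¬ ∀ a < x, p a x) → a < x ∧ ¬ p a x := by
    intro x
    by_cases hx : ∀ a < x, p a x
    · exact ⟨x, fun h' => absurd hx h'⟩
    · push Not at hx
      obtain ⟨a, ha⟩ := hx
      exact ⟨a, fun _ => ha⟩
  choose f hf using h2
  obtain ⟨y, hy⟩ := h.norm f (by filter_upwards [h1] with x hx using (hf x hx).1)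
  have hy' : ∀ᶠ x in U, f x = y := hy
  obtain ⟨x, hx1, hx2, hx3⟩ := (h1.and (hy'.and (hp y))).exists
  exact (hf x hx1).2 (hx2 ▸ hx3)

/-- ineffability -/
theorem ineff (h : NM U) (t : K → Set K) :
    ∃ T : Set K, ∀ᶠ x in U, ∀ y < x, (y ∈ t x ↔ y ∈ T) := by
  refine ⟨{y | ∀ᶠ x in U, y ∈ t x}, h.diag _ (fun y => ?_)⟩
  by_cases hy : ∀ᶠ x in U, y ∈ t x
  · filter_upwards [hy] with x hx
    exact ⟨fun _ => hy, fun _ => hx⟩
  · filter_upwards [Ultrafilter.eventually_not.2 hy] with x hx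
    exact ⟨fun h' => absurd h' hx, fun h' => absurd h' hy⟩

/-- a small set embeds below some point -/
theorem exists_emb (h : NM U) {Y : Type} (S : Set Y) (hS : Cardinal.mk S < Cardinal.mk K) :
    ∃ (b : K) (e : Y → K), Set.InjOn e S ∧ ∀ y ∈ S, e y < b := by
  classical
  obtain ⟨e⟩ := Cardinal.le_def _ _ |>.1 hS.le
  obtain ⟨b, hb⟩ := h.bdd (Set.range e) (lt_of_le_of_lt Cardinal.mk_range_le hS)
  refine ⟨b, fun y => if hy : y ∈ S then e ⟨y, hy⟩ else b, ?_, ?_⟩
  · intro y hy y' hy' hyy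
    simp only [hy, hy', dif_pos] at hyy
    exact congrArg Subtype.val (e.injective hyy)
  · intro y hy
    simp only [hy, dif_pos]
    exact hb _ ⟨_, rfl⟩

end NM

/-- injective choice from large sets -/
theorem inj_choice {ι Y : Type} (P : ι → Set Y)
    (hP : ∀ i, Cardinal.mk ι < Cardinal.mk (P i)) :
    ∃ c : ι → Y, Function.Injective c ∧ ∀ i, c i ∈ P i := by
  classical
  obtain ⟨lo, wo⟩ := exists_wellFoundedLT (α := ι)
  have key : ∀ (i : ι) (g : ∀ j, j < i → Y), ∃ y ∈ P i, ∀ j (hj : j < i), g j hj ≠ y := by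
    intro i g
    by_contra hc
    push Not at hc
    have : P i ⊆ Set.range (fun j : Set.Iio i => g j.1 j.2) := by
      intro y hy
      obtain ⟨j, hj, rfl⟩ := hc y hy
      exact ⟨⟨j, hj⟩, rfl⟩
    have h1 := (Cardinal.mk_le_mk_of_subset this).trans Cardinal.mk_range_le
    exact absurd ((hP i).trans_le (h1.trans (Cardinal.mk_set_le _))) (lt_irrefl _)
  choose F hF1 hF2 using key
  let c : ι → Y := (wellFounded_lt (α := ι)).fix F
  have hc : ∀ i, c i = F i (fun j _ => c j) := fun i => WellFounded.fix_eq _ _ _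
  refine ⟨c, ?_, fun i => by rw [hc i]; exact hF1 _ _⟩
  intro i j hij
  by_contra hne
  rcases lt_or_gt_of_ne hne with hlt | hlt
  · have := hF2 j (fun k _ => c k) i hlt
    rw [← hc j] at this
    exact this hij
  · have := hF2 i (fun k _ => c k) j hlt
    rw [← hc i] at this
    exact this hij.symm

/-- simultaneous splitting of large sets -/
theorem split_sets {ι Y : Type} (P : ι → Set Y) :
    ∃ Z : Set Y, ∀ i, Cardinal.mk (ι × Bool) < Cardinal.mk (P i) →
      (∃ y ∈ P i, y ∈ Z) ∧ ∃ y ∈ P i, y ∉ Z := by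
  classical
  let ι' := {i : ι // Cardinal.mk (ι × Bool) < Cardinal.mk (P i)}
  have hle : Cardinal.mk (ι' × Bool) ≤ Cardinal.mk (ι × Bool) :=
    Cardinal.mk_le_of_injective (f := fun p : ι' × Bool => (p.1.1, p.2)) (by
      rintro ⟨⟨i, hi⟩, b⟩ ⟨⟨j, hj⟩, b'⟩ hij
      simp only [Prod.mk.injEq] at hij
      obtain ⟨rfl, rfl⟩ := hij
      rfl)
  obtain ⟨c, hc, hcP⟩ := inj_choice (fun p : ι' × Bool => P p.1.1)
    (fun p => lt_of_le_of_lt hle p.1.2)
  refine ⟨Set.range (fun i : ι' => c (i, true)), fun i hi => ⟨⟨c (⟨i, hi⟩, true),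
    hcP (⟨i, hi⟩, true), ⟨i, hi⟩, rfl⟩, ⟨c (⟨i, hi⟩, false), hcP (⟨i, hi⟩, false), ?_⟩⟩⟩
  rintro ⟨j, hj⟩
  have := hc hj
  simp at this

end Pool.Agent.Lib.MP_491cc4_lc
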