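import Pool.Agent.Lib.MP_491cc4_lc.Small

set_option autoImplicit false

open Set Filter Cardinal

namespace Pool.Agent.Lib.MP_491cc4_lc

/-- there are `Λ` many pairwise disjoint positive sets -/
def NonSat {X : Type} (F : Filter X) (Λ : Type) : Prop :=
  ∃ p : X → Option Λ, ∀ i, ∃ᶠ x in F, p x = some i

theorem split_filters {X ι Λ : Type} {c : Cardinal.{0}} (F : ι → Filter X)
    (hF : ∀ s, Cpl c (F s)) (hΛ : Cardinal.mk (ι × Bool) < Cardinal.mk Λ)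
    (hc : Cardinal.mk (ι → Option Λ) < c) :
    ∃ Z : Set X, ∀ s, NonSat (F s) Λ → (∃ᶠ x in F s, x ∈ Z) ∧ ∃ᶠ x in F s, x ∉ Z := by
  classical
  have h1 : ∀ s, ∃ p : X → Option Λ, NonSat (F s) Λ → ∀ i, ∃ᶠ x in F s, p x = some i := by
    intro s
    by_cases hs : NonSat (F s) Λ
    · obtain ⟨p, hp⟩ := hs
      exact ⟨p, fun _ => hp⟩
    · exact ⟨fun _ => none, fun h' => absurd h' hs⟩
  choose p hp using h1
  obtain ⟨Z, hZ⟩ := split_sets (fun s => {w : ι → Option Λ | ∃ᶠ x in F s, (fun t => p t x) = w})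
  refine ⟨{x | (fun t => p t x) ∈ Z}, fun s hs => ?_⟩
  have h2 : Cardinal.mk Λ ≤
      Cardinal.mk {w : ι → Option Λ | ∃ᶠ x in F s, (fun t => p t x) = w} := by
    choose w hw using fun i => (hF s).freq (fun x => (fun t => p t x)) hc (hp s hs i)
    refine Cardinal.mk_le_of_injective
      (f := fun i => (⟨w i, (hw i).mono (fun x hx => hx.2)⟩ :
        {w : ι → Option Λ | ∃ᶠ x in F s, (fun t => p t x) = w})) ?_
    intro i j hij
    have hij' : w i = w j := congrArg Subtype.val hij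
    obtain ⟨x, hx1, hx2⟩ := (hw i).exists
    obtain ⟨y, hy1, hy2⟩ := (hw j).exists
    have h3 : p s x = p s y := congrFun (hx2.trans (hij'.trans hy2.symm)) s
    rw [hx1, hy1] at h3
    exact Option.some_injective _ h3
  obtain ⟨⟨w, hw, hwZ⟩, ⟨w', hw', hwZ'⟩⟩ := hZ s (lt_of_lt_of_le hΛ h2)
  refine ⟨Filter.Frequently.mono hw (fun x hx => ?_), Filter.Frequently.mono hw' (fun x hx => ?_)⟩
  · show (fun t => p t x) ∈ Z
    rw [hx]; exact hwZ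
  · show (fun t => p t x) ∉ Z
    rw [hx]; exact hwZ'

theorem atoms {X Λ : Type} (F : Filter X) (h : ¬ NonSat F Λ) :
    ∃ ω : X → Set Λ, ∀ w, (∃ᶠ x in F, ω x = w) → ∀ Y : Set X,
      (∀ᶠ x in F, ω x = w → x ∈ Y) ∨ (∀ᶠ x in F, ω x = w → x ∉ Y) := by
  classical
  obtain ⟨lo, wo⟩ := exists_wellFoundedLT (α := Λ)
  have h1 : ∀ D : Set X, ∃ Y : Set X,
      (∃ Y' : Set X, (∃ᶠ x in F, x ∈ D ∧ x ∈ Y') ∧ ∃ᶠ x in F, x ∈ D ∧ x ∉ Y') →
        (∃ᶠ x in F, x ∈ D ∧ x ∈ Y) ∧ ∃ᶠ x in F, x ∈ D ∧ x ∉ Y := by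
    intro D
    by_cases hD : ∃ Y' : Set X, (∃ᶠ x in F, x ∈ D ∧ x ∈ Y') ∧ ∃ᶠ x in F, x ∈ D ∧ x ∉ Y'
    · obtain ⟨Y, hY⟩ := hD
      exact ⟨Y, fun _ => hY⟩
    · exact ⟨∅, fun h' => absurd h' hD⟩
  choose sp hsp using h1
  let b : Λ → X → Prop := (wellFounded_lt (α := Λ)).fix
    (fun ξ (rec : ∀ ζ, ζ < ξ → X → Prop) x =>
      x ∈ sp {x' | ∀ ζ (hζ : ζ < ξ), (rec ζ hζ x' ↔ rec ζ hζ x)})
  have hb : ∀ ξ x, b ξ x ↔ x ∈ sp {x' | ∀ ζ < ξ, (b ζ x' ↔ b ζ x)} := by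
    intro ξ x
    have : b ξ = _ := WellFounded.fix_eq _ _ _
    rw [this]
  refine ⟨fun x => {ξ | b ξ x}, fun w hw Y => ?_⟩
  by_contra hc
  rw [not_or] at hc
  obtain ⟨hc1, hc2⟩ := hc
  have hc1' : ∃ᶠ x in F, {ξ | b ξ x} = w ∧ x ∉ Y := by
    rw [Filter.not_eventually] at hc1
    exact hc1.mono (fun x hx => Classical.not_imp.1 hx)
  have hc2' : ∃ᶠ x in F, {ξ | b ξ x} = w ∧ x ∈ Y := by
    rw [Filter.not_eventually] at hc2
    exact hc2.mono (fun x hx => ⟨(Classical.not_imp.1 hx).1, not_not.1 (Classical.not_imp.1 hx).2⟩)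
  apply h
  refine ⟨fun x => if hx : ∃ ξ, (∀ ζ < ξ, (b ζ x ↔ ζ ∈ w)) ∧ ¬ (b ξ x ↔ ξ ∈ w) then
    some hx.choose else none, fun ξ => ?_⟩
  have hD := hsp {x | ∀ ζ < ξ, (b ζ x ↔ ζ ∈ w)} ⟨Y,
    hc2'.mono (fun x hx => ⟨fun ζ _ => by rw [← hx.1]; rfl, hx.2⟩),
    hc1'.mono (fun x hx => ⟨fun ζ _ => by rw [← hx.1]; rfl, hx.2⟩)⟩
  have hb' : ∀ x, (∀ ζ < ξ, (b ζ x ↔ ζ ∈ w)) →
      (b ξ x ↔ x ∈ sp {x | ∀ ζ < ξ, (b ζ x ↔ ζ ∈ w)}) := by
    intro x hx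
    rw [hb]
    have : {x' | ∀ ζ < ξ, (b ζ x' ↔ b ζ x)} = {x | ∀ ζ < ξ, (b ζ x ↔ ζ ∈ w)} := by
      ext x'
      exact ⟨fun h' ζ hζ => (h' ζ hζ).trans (hx ζ hζ),
        fun h' ζ hζ => (h' ζ hζ).trans (hx ζ hζ).symm⟩
    rw [this]
  have hE : ∃ᶠ x in F, (∀ ζ < ξ, (b ζ x ↔ ζ ∈ w)) ∧ ¬ (b ξ x ↔ ξ ∈ w) := by
    by_cases hξ : ξ ∈ w
    · refine hD.2.mono (fun x hx => ⟨hx.1, fun h' => hx.2 ((hb' x hx.1).1 (h'.2 hξ))⟩)
    · refine hD.1.mono (fun x hx => ⟨hx.1, fun h' => hξ (h'.1 ((hb' x hx.1).2 hx.2))⟩)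
  refine hE.mono (fun x hx => ?_)
  have hx' : ∃ ξ, (∀ ζ < ξ, (b ζ x ↔ ζ ∈ w)) ∧ ¬ (b ξ x ↔ ξ ∈ w) := ⟨ξ, hx⟩
  beta_reduce
  rw [dif_pos hx']
  congr 1
  obtain ⟨h2, h3⟩ := hx'.choose_spec
  rcases lt_trichotomy hx'.choose ξ with h4 | h4 | h4
  · exact absurd (hx.1 _ h4) h3
  · exact h4
  · exact absurd (h2 _ h4) hx.2

theorem exists_uf {X : Type} (F : Filter X) (D : X → Prop) (hD : ∃ᶠ x in F, D x)
    (hat : ∀ Y : Set X, (∀ᶠ x in F, D x → x ∈ Y) ∨ (∀ᶠ x in F, D x → x ∉ Y)) :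
    ∃ W : Ultrafilter X, ∀ Y, Y ∈ W ↔ ∀ᶠ x in F, D x → x ∈ Y := by
  refine ⟨Ultrafilter.ofComplNotMemIff (F ⊓ Filter.principal {x | D x}) (fun Y => ?_), fun Y => ?_⟩
  · rw [Filter.mem_inf_principal, Filter.mem_inf_principal]
    constructor
    · intro h1
      rcases hat Y with h2 | h2
      · exact h2
      · exact absurd h2 h1
    · intro h1 h2
      obtain ⟨x, hx1, hx2, hx3⟩ := (hD.and_eventually (Filter.Eventually.and h1 h2)).exists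
      exact hx3 hx1 (hx2 hx1)
  · exact Filter.mem_inf_principal

theorem mem_bind_iff {K X : Type} (U : Ultrafilter K) (W : K → Ultrafilter X) (Y : Set X) :
    Y ∈ U.bind W ↔ ∀ᶠ a in U, Y ∈ W a := Filter.mem_bind'

variable {K : Type} [LinearOrder K] [WellFoundedLT K]

/-- Rudin-Frolik decomposition over the normal measure -/
theorem decomp {U : Ultrafilter K} (h : NM U) {X : Type} {V : Ultrafilter X} (hT : Tk U V)
    (hV : ∀ x, V ≠ pure x) :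
    ∃ (p : X → K) (W : K → Ultrafilter X), V = U.bind W ∧
      ∀ᶠ a in U, (p ⁻¹' {a} ∈ W a ∧ Tk U (W a)) := by
  classical
  obtain ⟨p, hp, hpU⟩ := exists_minFun h hT hV
  obtain ⟨f0, hf0⟩ := id hT
  have hf := hf0.inter (fun B => p ⁻¹' B) (fun A B hAB => Set.preimage_mono hAB) (fun B hB => by
      rw [← hpU] at hB
      exact Ultrafilter.mem_map.1 hB)
  set f : Set K → Set X := fun B => f0 B ∩ p ⁻¹' B with hfdef
  have hfb : ∀ B x, x ∈ f B → p x ∈ B := fun B z hz => hz.2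
  clear_value f
  let φ : K → Set K → Set K → Set X :=
    fun α s C => f (s ∪ {α} ∪ (C ∩ Set.Ioi α)) ∩ p ⁻¹' {α}
  have hφ : ∀ α s, Monotone (φ α s) := fun α s C C' hC =>
    Set.inter_subset_inter_left _ (hf.mono _ _
      (Set.union_subset_union_right _ (Set.inter_subset_inter_left _ hC)))
  let F : K → Set K → Filter X := fun α s => (U : Filter K).lift' (φ α s)
  have hF : ∀ α s Y, Y ∈ F α s ↔ ∃ C ∈ U, φ α s C ⊆ Y :=
    fun α s Y => Filter.mem_lift'_sets (hφ α s)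
  have hFc : ∀ α s, Cpl (Cardinal.mk K) (F α s) := by
    intro α s ι q hι hq
    choose C hC hCq using fun i => (hF α s _).1 (hq i)
    refine (hF α s _).2 ⟨{a | ∀ i, a ∈ C i}, h.cpl ι (fun i a => a ∈ C i) hι hC, ?_⟩
    intro x hx i
    exact hCq i (hφ α s (show {a | ∀ i, a ∈ C i} ⊆ C i from fun a ha => ha i) hx)
  have hFp : ∀ α s, ∀ᶠ x in F α s, p x = α :=
    fun α s => (hF α s _).2 ⟨Set.univ, Filter.univ_mem, Set.inter_subset_right⟩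
  -- sums of large sets are large
  have hA : ∀ B ∈ U, ∀ Y : K → X → Prop, (∀ᶠ α in U, ∀ᶠ x in F α (B ∩ Set.Iio α), Y α x) →
      ∀ᶠ x in V, Y (p x) x := by
    intro B hB Y hY
    have h1 : ∀ α, ∃ C ∈ U, (∀ᶠ x in F α (B ∩ Set.Iio α), Y α x) →
        φ α (B ∩ Set.Iio α) C ⊆ {x | Y α x} := by
      intro α
      by_cases hα : ∀ᶠ x in F α (B ∩ Set.Iio α), Y α x
      · obtain ⟨C, hC, hCY⟩ := (hF _ _ _).1 hα
        exact ⟨C, hC, fun _ => hCY⟩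
      · exact ⟨Set.univ, Filter.univ_mem, fun h' => absurd h' hα⟩
    choose C hC hCY using h1
    have h2 := h.diag (fun α a => a ∈ C α) hC
    have h3 : B ∩ ({α | ∀ᶠ x in F α (B ∩ Set.Iio α), Y α x} ∩ {a | ∀ α < a, a ∈ C α}) ∈ U :=
      Filter.inter_mem hB (Filter.inter_mem hY h2)
    filter_upwards [hf.mem _ h3] with x hx
    refine hCY (p x) (hfb _ _ hx).2.1 ⟨hf.mono _ _ ?_ hx, rfl⟩
    intro a ha
    rcases lt_trichotomy a (p x) with h4 | h4 | h4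
    · exact Or.inl (Or.inl ⟨ha.1, h4⟩)
    · exact Or.inl (Or.inr h4)
    · exact Or.inr ⟨ha.2.2 _ h4, h4⟩
  have hB : ∀ B, ∀ α ∈ B, f B ∈ F α (B ∩ Set.Iio α) ∨ B ∉ U := by
    intro B α hα
    by_cases hBU : B ∈ U
    · refine Or.inl ((hF _ _ _).2 ⟨B, hBU, Set.inter_subset_left.trans (hf.mono _ _ ?_)⟩)
      rintro a ((ha | ha) | ha)
      · exact ha.1
      · rw [ha]; exact hα
      · exact ha.1
    · exact Or.inr hBU
  let Λ : K → Type := fun α => Set ({s : Set K | s ⊆ Set.Iio α} × Bool)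
  have hι : ∀ α, Cardinal.mk {s : Set K | s ⊆ Set.Iio α} < Cardinal.mk K :=
    fun α => h.mk_subsets (h.seg α)
  have hΛ : ∀ α, Cardinal.mk (Λ α) < Cardinal.mk K := fun α =>
    h.mk_set (h.mk_prod (hι α) (lt_trans (Cardinal.lt_aleph0_of_finite _) h.unc))
  have hsplit := fun α => split_filters (Λ := Λ α)
    (fun s : {s : Set K | s ⊆ Set.Iio α} => F α s.1) (fun s => hFc α s.1)
    (by rw [Cardinal.mk_set]; exact Cardinal.cantor _)
    (h.mk_fun (hι α) (by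
      rw [Cardinal.mk_option]
      exact Cardinal.add_lt_of_lt h.unc.le (hΛ α) (lt_trans Cardinal.one_lt_aleph0 h.unc)))
  choose Z hZ using hsplit
  obtain ⟨B, hBU, hsat⟩ : ∃ B ∈ U, ∀ α ∈ B, ¬ NonSat (F α (B ∩ Set.Iio α)) (Λ α) := by
    rcases Ultrafilter.mem_or_compl_mem V {x | x ∈ Z (p x)} with h' | h'
    · obtain ⟨B, hBU, hBZ⟩ := hf.cof _ h'
      refine ⟨B, hBU, fun α hα hns => ?_⟩
      have h1 := (hZ α ⟨B ∩ Set.Iio α, Set.inter_subset_right⟩ hns).2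
      have h2 := (hB B α hα).resolve_right (not_not.2 hBU)
      obtain ⟨x, hx1, hx2, hx3⟩ := (h1.and_eventually ((hFp α _).and h2)).exists
      exact hx1 (hx2 ▸ hBZ hx3)
    · obtain ⟨B, hBU, hBZ⟩ := hf.cof _ h'
      refine ⟨B, hBU, fun α hα hns => ?_⟩
      have h1 := (hZ α ⟨B ∩ Set.Iio α, Set.inter_subset_right⟩ hns).1
      have h2 := (hB B α hα).resolve_right (not_not.2 hBU)
      obtain ⟨x, hx1, hx2, hx3⟩ := (h1.and_eventually ((hFp α _).and h2)).exists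
      exact hBZ hx3 (show x ∈ Z (p x) from hx2 ▸ hx1)
  have h1 : ∀ α, ∃ ω : X → Set (Λ α), α ∈ B → ∀ w, (∃ᶠ x in F α (B ∩ Set.Iio α), ω x = w) →
      ∀ Y : Set X, (∀ᶠ x in F α (B ∩ Set.Iio α), ω x = w → x ∈ Y) ∨
        (∀ᶠ x in F α (B ∩ Set.Iio α), ω x = w → x ∉ Y) := by
    intro α
    by_cases hα : α ∈ B
    · obtain ⟨ω, hω⟩ := atoms _ (hsat α hα)
      exact ⟨ω, fun _ => hω⟩
    · exact ⟨fun _ => ∅, fun h' => absurd h' hα⟩
  choose ω hω using h1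
  obtain ⟨g, hg⟩ := small_fun' h hT hp hpU
    (fun x => (⟨p x, ω (p x) x⟩ : Σ α, Set (Λ α)))
    (fun α => Set.range (Sigma.mk α))
    (fun α => lt_of_le_of_lt Cardinal.mk_range_le (h.mk_set (hΛ α)))
    (Filter.Eventually.of_forall (fun x => ⟨_, rfl⟩))
  let D : K → X → Prop := fun α x => (⟨α, ω α x⟩ : Σ α, Set (Λ α)) = g α
  have hpos : ∀ᶠ α in U, ∃ᶠ x in F α (B ∩ Set.Iio α), D α x := by
    by_contra hc
    have h2 := hA B hBU (fun α x => ¬ D α x) (by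
      filter_upwards [Ultrafilter.eventually_not.2 hc] with α hα
      exact Filter.not_frequently.1 hα)
    obtain ⟨x, hx1, hx2⟩ := (hg.and h2).exists
    exact hx2 hx1
  have h2 : ∀ α, ∃ W : Ultrafilter X, (α ∈ B ∧ ∃ᶠ x in F α (B ∩ Set.Iio α), D α x) →
      ∀ Y, Y ∈ W ↔ ∀ᶠ x in F α (B ∩ Set.Iio α), D α x → x ∈ Y := by
    intro α
    by_cases hα : α ∈ B ∧ ∃ᶠ x in F α (B ∩ Set.Iio α), D α x
    · obtain ⟨x0, hx0⟩ := hα.2.exists
      have hD : ∀ x, D α x ↔ ω α x = ω α x0 := by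
        intro x
        constructor
        · intro hx
          have := hx.trans hx0.symm
          simpa using this
        · intro hx
          show (⟨α, ω α x⟩ : Σ α, Set (Λ α)) = g α
          rw [hx]; exact hx0
      obtain ⟨W, hW⟩ := exists_uf (F α (B ∩ Set.Iio α)) (D α) hα.2 (fun Y => by
        simp only [hD]
        exact hω α hα.1 _ (hα.2.mono (fun x hx => (hD x).1 hx)) Y)
      exact ⟨W, fun _ => hW⟩
    · exact ⟨V, fun h' => absurd h' hα⟩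
  choose W hW using h2
  have hgood : ∀ᶠ α in U, α ∈ B ∧ ∃ᶠ x in F α (B ∩ Set.Iio α), D α x :=
    Filter.Eventually.and hBU hpos
  refine ⟨p, W, ?_, ?_⟩
  · refine (Ultrafilter.coe_injective (Ultrafilter.unique (U.bind W) ?_))
    intro Y hY
    have hY' := (mem_bind_iff U W Y).1 hY
    have h3 := hA B hBU (fun α x => D α x → x ∈ Y) (by
      filter_upwards [hgood, hY'] with α hα hα'
      exact (hW α hα Y).1 hα')
    filter_upwards [h3, hg] with x hx1 hx2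
    exact hx1 hx2
  · filter_upwards [hgood] with α hα
    refine ⟨(hW α hα _).2 ((hFp α _).mono (fun x hx _ => hx)),
      fun C => φ α (B ∩ Set.Iio α) C ∩ {x | D α x}, ?_, ?_, ?_⟩
    · intro C C' hC
      exact Set.inter_subset_inter_left _ (hφ _ _ hC)
    · intro C hC
      refine (hW α hα _).2 ?_
      have : φ α (B ∩ Set.Iio α) C ∈ F α (B ∩ Set.Iio α) := (hF _ _ _).2 ⟨C, hC, subset_rfl⟩
      filter_upwards [this] with x hx hx'
      exact ⟨hx, hx'⟩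
    · intro Y hY
      obtain ⟨C, hC, hCY⟩ := (hF _ _ _).1 ((hW α hα _).1 hY)
      exact ⟨C, hC, fun x hx => hCY hx.1 hx.2⟩

end Pool.Agent.Lib.MP_491cc4_lc
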