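import Pool.Agent.Lib.MP_491cc4_lc.Tree

set_option autoImplicit false

open Set Filter Cardinal

namespace Pool.Agent.Lib.MP_491cc4_lc

variable {K : Type} [LinearOrder K]

/-- points of countable cofinality -/
def CofW (x : K) : Prop :=
  ∃ c : ℕ → K, StrictMono c ∧ (∀ n, c n < x) ∧ ∀ y < x, ∃ n, y < c n

/-- closed unbounded sets -/
def Clb (C : Set K) : Prop :=
  (∀ a, ∃ e ∈ C, a < e) ∧ ∀ y, (∃ z, z < y) → (∀ z < y, ∃ e ∈ C, z < e ∧ e < y) → y ∈ C

/-- normal filters -/
structure NF (F : Filter K) : Prop where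
  ne : F.NeBot
  tail : ∀ a, ∀ᶠ x in F, a < x
  diag : ∀ p : K → K → Prop, (∀ a, ∀ᶠ x in F, p a x) → ∀ᶠ x in F, ∀ a < x, p a x

theorem NF.club {F : Filter K} (h : NF F) {C : Set K} (hC : Clb C) : C ∈ F := by
  choose e he hae using hC.1
  have h1 := h.diag (fun a x => e a < x) (fun a => h.tail (e a))
  have := h.ne
  obtain ⟨a0, _⟩ := (Filter.Eventually.of_forall (fun _ => trivial) : ∀ᶠ _x in F, True).exists
  filter_upwards [h1, h.tail a0] with y hy hy0
  exact hC.2 y ⟨a0, hy0⟩ (fun z hz => ⟨e z, he z, hae z, hy z hz⟩)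

theorem NM.nf {U : Ultrafilter K} (h : NM U) : NF (U : Filter K) :=
  ⟨inferInstance, h.tail, h.diag⟩

theorem NM.not_cofW {U : Ultrafilter K} (h : NM U) : ∀ᶠ x : K in U, ¬ CofW x := by
  classical
  refine Ultrafilter.eventually_not.2 (fun hc => ?_)
  have h1 : ∀ x : K, ∃ c : ℕ → K, CofW x → (∀ n, c n < x) ∧ ∀ y < x, ∃ n, y < c n := by
    intro x
    by_cases hx : CofW x
    · obtain ⟨c, _, h2, h3⟩ := hx
      exact ⟨c, fun _ => ⟨h2, h3⟩⟩
    · exact ⟨fun _ => x, fun h' => absurd h' hx⟩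
  choose c hcx using h1
  have h2 : ∀ n, ∃ y, ∀ᶠ x in U, c x n = y := fun n =>
    h.norm (fun x => c x n) (by filter_upwards [hc] with x hx using (hcx x hx).1 n)
  choose y hy using h2
  obtain ⟨b, hb⟩ := h.bdd (Set.range y)
    (lt_of_le_of_lt Cardinal.mk_range_le (by simpa using h.unc))
  have h3 := h.cpl ℕ (fun n x => c x n = y n) (by simpa using h.unc) hy
  obtain ⟨x, hx1, hx2, hx3⟩ := (hc.and (h3.and (h.tail b))).exists
  obtain ⟨n, hn⟩ := (hcx x hx1).2 b hx3
  rw [hx2 n] at hn
  exact lt_asymm hn (hb _ ⟨n, rfl⟩)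

theorem clb_Ioi {U : Ultrafilter K} (h : NM U) (y : K) : Clb (Set.Ioi y) := by
  refine ⟨fun a => ?_, fun x _ hx => ?_⟩
  · obtain ⟨e, he1, he2⟩ := ((h.tail a).and (h.tail y)).exists
    exact ⟨e, he2, he1⟩
  · by_contra hc
    rename_i hz
    obtain ⟨z, hz⟩ := hz
    obtain ⟨e, he, _, hey⟩ := hx z hz
    exact hc (lt_trans he hey)

theorem clb_diag {U : Ultrafilter K} (h : NM U) (C : K → Set K) (hC : ∀ a, Clb (C a)) :
    Clb {y | ∀ a < y, y ∈ C a} := by
  refine ⟨fun a => ?_, fun y hy0 hy a ha => ?_⟩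
  · obtain ⟨e, he1, he2⟩ := ((h.diag (fun a x => x ∈ C a)
      (fun a => h.nf.club (hC a))).and (h.tail a)).exists
    exact ⟨e, he1, he2⟩
  · refine (hC a).2 y hy0 (fun z hz => ?_)
    obtain ⟨e, he, hze, hey⟩ := hy (max z a) (max_lt hz ha)
    exact ⟨e, he a (lt_of_le_of_lt (le_max_right _ _) hze),
      lt_of_le_of_lt (le_max_left _ _) hze, hey⟩

theorem cpl_pw {U : Ultrafilter K} (h : NM U) (n : ℕ) :
    Cpl (Cardinal.mk K) (Pw U n : Filter (List K)) := by
  induction n with
  | zero =>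
    intro ι p _ hp
    exact (show ∀ i, p i [] from fun i => hp i)
  | succ n ih =>
    intro ι p hι hp
    rw [Pw_succ] at hp ⊢
    have h1 : ∀ i, ∀ᶠ a in U, ∀ᶠ l in Pw U n, p i (a :: l) :=
      fun i => (mem_bind_iff _ _ _).1 (hp i)
    refine (mem_bind_iff _ _ _).2 ?_
    filter_upwards [h.cpl ι _ hι h1] with a ha
    exact ih ι (fun i l => p i (a :: l)) hι ha

/-- no image of a Fubini power extends the club filter on cofinality omega -/
theorem pw_not_club {U : Ultrafilter K} (h : NM U) (n : ℕ) (g : List K → K)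
    (hg : ∀ᶠ l in Pw U n, CofW (g l)) : ∃ C, Clb C ∧ ∀ᶠ l in Pw U n, g l ∉ C := by
  classical
  induction n generalizing g with
  | zero => exact ⟨Set.Ioi (g []), clb_Ioi h _, lt_irrefl (g [])⟩
  | succ n ih =>
    rw [Pw_succ] at hg
    have hg' : ∀ᶠ a in U, ∀ᶠ l in Pw U n, CofW (g (a :: l)) := (mem_bind_iff _ _ _).1 hg
    have h1 : ∀ a, ∃ C, Clb C ∧ ((∀ᶠ l in Pw U n, CofW (g (a :: l))) →
        ∀ᶠ l in Pw U n, g (a :: l) ∉ C) := by
      intro a
      by_cases ha : ∀ᶠ l in Pw U n, CofW (g (a :: l))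
      · obtain ⟨C, hC, hC'⟩ := ih (fun l => g (a :: l)) ha
        exact ⟨C, hC, fun _ => hC'⟩
      · exact ⟨Set.Ioi a, clb_Ioi h a, fun h' => absurd h' ha⟩
    choose C hC hC' using h1
    by_cases hD : ∀ᶠ l in Pw U (n + 1), g l ∉ {y | ∀ a < y, y ∈ C a}
    · exact ⟨_, clb_diag h C hC, hD⟩
    · have hD1 : ∀ᶠ l in Pw U (n + 1), g l ∈ {y | ∀ a < y, y ∈ C a} := by
        have := Ultrafilter.eventually_not.2 hD
        filter_upwards [this] with l hl using not_not.1 hl
      rw [Pw_succ] at hD1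
      have hD2 : ∀ᶠ a in U, ∀ᶠ l in Pw U n, ∀ b < g (a :: l), g (a :: l) ∈ C b :=
        (mem_bind_iff _ _ _).1 hD1
      have h2 : ∀ a, ∃ r, r ≤ a ∧ ((∀ᶠ l in Pw U n, g (a :: l) ≤ a) →
          ∀ᶠ l in Pw U n, g (a :: l) = r) := by
        intro a
        by_cases ha : ∀ᶠ l in Pw U n, g (a :: l) ≤ a
        · obtain ⟨r, hr⟩ := (cpl_pw h n).const (fun l => g (a :: l)) (Set.Iic a) (h.iic a) ha
          obtain ⟨l, hl1, hl2⟩ := (ha.and hr).exists
          exact ⟨r, hl2 ▸ hl1, fun _ => hr⟩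
        · exact ⟨a, le_rfl, fun h' => absurd h' ha⟩
      choose r hr hr' using h2
      have h3 : ∀ᶠ a in U, (∀ᶠ l in Pw U n, g (a :: l) = r a) ∧ r a < a := by
        filter_upwards [hg', hD2, h.not_cofW] with a ha1 ha2 ha3
        have h4 : ∀ᶠ l in Pw U n, g (a :: l) ≤ a := by
          filter_upwards [hC' a ha1, ha2] with l hl1 hl2
          by_contra hc
          exact hl1 (hl2 a (not_le.1 hc))
        refine ⟨hr' a h4, lt_of_le_of_ne (hr a) (fun h5 => ?_)⟩
        obtain ⟨l, hl1, hl2⟩ := (ha1.and (hr' a h4)).exists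
        rw [hl2, h5] at hl1
        exact ha3 hl1
      obtain ⟨y, hy⟩ := h.norm r (by filter_upwards [h3] with a ha using ha.2)
      refine ⟨Set.Ioi y, clb_Ioi h y, ?_⟩
      rw [Pw_succ]
      refine (mem_bind_iff _ _ _).2 ?_
      filter_upwards [h3, hy] with a ha1 ha2
      have h6 : ∀ᶠ l in Pw U n, g (a :: l) ∉ Set.Ioi y := by
        filter_upwards [ha1.1] with l hl
        rw [hl, show r a = y from ha2]
        exact lt_irrefl y
      exact h6

section tree

variable {X : Type}

/-- the branch of the tree followed by a point -/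
def st (π : List K → X → K) (l : List K) (x : X) : ℕ → List K
  | 0 => l
  | n + 1 => π (st π l x n) x :: st π l x n

omit [LinearOrder K] in
theorem st_succ (π : List K → X → K) (l : List K) (x : X) (n : ℕ) :
    st π l x (n + 1) = st π (π l x :: l) x n := by
  induction n with
  | zero => rfl
  | succ n ih => rw [st, ih]; rfl

/-- the ladder of a point -/
def lad (π : List K → X → K) (l : List K) (x : X) (n : ℕ) : K := π (st π l x n) x

variable [WellFoundedLT K]

open Classical in
/-- the limit of the ladder -/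
noncomputable def top (π : List K → X → K) (l : List K) (x : X) : K :=
  if h : ({y | ∀ᶠ n in Filter.atTop, lad π l x n < y} : Set K).Nonempty then
    (wellFounded_lt (α := K)).min _ h else π l x

theorem top_cons {U : Ultrafilter K} (h : NM U) (π : List K → X → K) (l : List K) (x : X) :
    top π (π l x :: l) x = top π l x := by
  have h0 : ∀ l, ({y | ∀ᶠ n in Filter.atTop, lad π l x n < y} : Set K).Nonempty := by
    intro l
    obtain ⟨b, hb⟩ := h.bdd (Set.range (lad π l x))
      (lt_of_le_of_lt Cardinal.mk_range_le (by simpa using h.unc))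
    exact ⟨b, Filter.Eventually.of_forall (fun n => hb _ ⟨n, rfl⟩)⟩
  have h1 : ({y | ∀ᶠ n in Filter.atTop, lad π (π l x :: l) x n < y} : Set K) =
      {y | ∀ᶠ n in Filter.atTop, lad π l x n < y} := by
    ext y
    simp only [Set.mem_ofPred_eq, Filter.eventually_atTop]
    constructor
    · rintro ⟨N, hN⟩
      refine ⟨N + 1, fun n hn => ?_⟩
      obtain ⟨m, rfl⟩ : ∃ m, n = m + 1 := ⟨n - 1, by omega⟩
      have := hN m (by omega)
      rwa [lad, ← st_succ] at this
    · rintro ⟨N, hN⟩
      refine ⟨N, fun n hn => ?_⟩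
      have := hN (n + 1) (by omega)
      rwa [lad, st_succ] at this
  rw [top, top, dif_pos (h0 _), dif_pos (h0 _)]
  congr 1

theorem top_st {U : Ultrafilter K} (h : NM U) (π : List K → X → K) (l : List K) (x : X) (n : ℕ) :
    top π (st π l x n) x = top π l x := by
  induction n with
  | zero => rfl
  | succ n ih => rw [st, top_cons h, ih]

theorem top_spec {U : Ultrafilter K} (h : NM U) (π : List K → X → K) (l : List K) (x : X)
    (hm : StrictMono (lad π l x)) :
    (∀ n, lad π l x n < top π l x) ∧ ∀ y < top π l x, ∃ n, y < lad π l x n := by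
  have h0 : ({y | ∀ᶠ n in Filter.atTop, lad π l x n < y} : Set K).Nonempty := by
    obtain ⟨b, hb⟩ := h.bdd (Set.range (lad π l x))
      (lt_of_le_of_lt Cardinal.mk_range_le (by simpa using h.unc))
    exact ⟨b, Filter.Eventually.of_forall (fun n => hb _ ⟨n, rfl⟩)⟩
  rw [top, dif_pos h0]
  constructor
  · intro n
    have h1 : ∀ᶠ m in Filter.atTop, lad π l x m < (wellFounded_lt (α := K)).min _ h0 :=
      (wellFounded_lt (α := K)).min_mem _ h0
    obtain ⟨m, hm1, hm2⟩ := (h1.and (Filter.eventually_ge_atTop n)).exists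
    exact lt_of_le_of_lt (hm.monotone hm2) hm1
  · intro y hy
    by_contra hc
    push Not at hc
    refine (wellFounded_lt (α := K)).not_lt_min _ (x := y) ?_ hy
    exact Filter.Eventually.of_forall (fun n => lt_of_lt_of_le (hm (Nat.lt_succ_self n)) (hc _))

variable {U : Ultrafilter K} {W : List K → Ultrafilter X} {π : List K → X → K}

omit [LinearOrder K] [WellFoundedLT K] in
theorem IsTree.step (ht : IsTree U W π) (l : List K) (Q : K → X → Prop)
    (hQ : ∀ᶠ a in U, ∀ᶠ x in W (a :: l), Q a x) : ∀ᶠ x in W l, Q (π l x) x := by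
  rw [ht.sum l]
  refine (mem_bind_iff _ _ _).2 ?_
  filter_upwards [hQ, ht.disc l] with a ha1 ha2
  have h1 : ∀ᶠ x in W (a :: l), Q (π l x) x := by
    filter_upwards [ha1, ha2] with x hx1 hx2
    rw [show π l x = a from hx2]
    exact hx1
  exact h1

omit [LinearOrder K] [WellFoundedLT K] in
theorem IsTree.down (ht : IsTree U W π) (l : List K) (p : X → Prop)
    (hp : ∀ᶠ x in W l, p x) : ∀ᶠ a in U, ∀ᶠ x in W (a :: l), p x := by
  rw [ht.sum l] at hp
  exact (mem_bind_iff _ _ _).1 hp

omit [WellFoundedLT K] in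
theorem IsTree.cpl (ht : IsTree U W π) (h : NM U) (l : List K) :
    Cpl (Cardinal.mk K) (W l : Filter X) := (ht.tk l).cpl h.cpl

omit [WellFoundedLT K] in
/-- typical points: a hereditary property of nodes and a local property of points hold along
the whole branch -/
theorem IsTree.typ (ht : IsTree U W π) (h : NM U) (N : List K → Prop)
    (hN : ∀ l, N l → ∀ᶠ a in U, N (a :: l)) (P : List K → X → Prop)
    (hP : ∀ l, N l → ∀ᶠ x in W l, P l x) (l : List K) (hl : N l) :
    ∀ᶠ x in W l, ∀ n, N (st π l x n) ∧ P (st π l x n) x := by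
  refine ht.cpl h l ℕ _ (by simpa using h.unc) (fun n => ?_)
  induction n generalizing l with
  | zero => filter_upwards [hP l hl] with x hx using ⟨hl, hx⟩
  | succ n ih =>
    have := ht.step l (fun a x => N (st π (a :: l) x n) ∧ P (st π (a :: l) x n) x) (by
      filter_upwards [hN l hl] with a ha using ih (a :: l) ha)
    filter_upwards [this] with x hx
    rw [st_succ]
    exact hx

omit [LinearOrder K] [WellFoundedLT K] in
theorem IsTree.proj (ht : IsTree U W π) (l : List K) (p : K → Prop) (hp : ∀ᶠ a in U, p a) :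
    ∀ᶠ x in W l, p (π l x) :=
  ht.step l (fun a _ => p a) (hp.mono (fun _ ha => Filter.Eventually.of_forall (fun _ => ha)))

omit [WellFoundedLT K] in
theorem IsTree.diag (ht : IsTree U W π) (h : NM U) (l : List K) (p : K → X → Prop)
    (hp : ∀ a, ∀ᶠ x in W l, p a x) : ∀ᶠ x in W l, ∀ a < π l x, p a x := by
  refine ht.step l (fun b x => ∀ a < b, p a x) ?_
  filter_upwards [h.diag (fun a b => ∀ᶠ x in W (b :: l), p a x)
    (fun a => ht.down l _ (hp a))] with b hb
  exact (ht.cpl h _).ball (Set.Iio b) p (h.seg b) hb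

omit [WellFoundedLT K] in
theorem IsTree.above (ht : IsTree U W π) (h : NM U) (l : List K) :
    ∀ᶠ x in W l, ∀ b ∈ l, b < π l x := by
  refine ht.proj l (fun a => ∀ b ∈ l, b < a) ?_
  exact (Filter.eventually_all_finite (List.finite_toSet l)).2 (fun b _ => h.tail b)

omit [WellFoundedLT K] in
theorem IsTree.mono (ht : IsTree U W π) (h : NM U) (l : List K) :
    ∀ᶠ x in W l, (∀ n, ∀ b ∈ st π l x n, b < lad π l x n) ∧ StrictMono (lad π l x) := by
  filter_upwards [ht.typ h (fun _ => True) (fun _ _ => Filter.Eventually.of_forall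
    (fun _ => trivial)) (fun l x => ∀ b ∈ l, b < π l x) (fun l _ => ht.above h l) l trivial]
    with x hx
  refine ⟨fun n => (hx n).2, strictMono_nat_of_lt_succ (fun n => ?_)⟩
  exact (hx (n + 1)).2 _ List.mem_cons_self

/-- the projected ultrafilters -/
noncomputable def pr (W : List K → Ultrafilter X) (π : List K → X → K) (l : List K) :
    Ultrafilter K := Ultrafilter.map (top π l) (W l)

theorem IsTree.cof (ht : IsTree U W π) (h : NM U) (l : List K) :
    ∀ᶠ y : K in pr W π l, CofW y := by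
  have : ∀ᶠ x in W l, CofW (top π l x) := by
    filter_upwards [ht.mono h l] with x hx
    exact ⟨lad π l x, hx.2, top_spec h π l x hx.2⟩
  exact this

theorem IsTree.pr_down (ht : IsTree U W π) (h : NM U) (l : List K) (p : K → Prop)
    (hp : ∀ᶠ y in pr W π l, p y) : ∀ᶠ a in U, ∀ᶠ y in pr W π (a :: l), p y := by
  have hp' : ∀ᶠ x in W l, p (top π l x) := hp
  filter_upwards [ht.down l _ hp', ht.disc l] with a ha1 ha2
  have h1 : ∀ᶠ x in W (a :: l), p (top π (a :: l) x) := by
    filter_upwards [ha1, ha2] with x hx1 hx2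
    rw [← show π l x = a from hx2, top_cons h]
    exact hx1
  exact h1

theorem IsTree.pr_tail (ht : IsTree U W π) (h : NM U) (l : List K) (a : K) :
    ∀ᶠ y in pr W π l, a < y := by
  have : ∀ᶠ x in W l, a < top π l x := by
    filter_upwards [ht.mono h l, ht.proj l _ (h.tail a)] with x hx1 hx2
    exact lt_trans hx2 ((top_spec h π l x hx1.2).1 0)
  exact this

theorem IsTree.pr_diag (ht : IsTree U W π) (h : NM U) (p : K → K → Prop)
    (hp : ∀ l a, ∀ᶠ y in pr W π l, p a y) (l : List K) :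
    ∀ᶠ y in pr W π l, ∀ a < y, p a y := by
  have h1 := ht.typ h (fun _ => True) (fun _ _ => Filter.Eventually.of_forall
    (fun _ => trivial)) (fun l x => ∀ a < π l x, p a (top π l x))
    (fun l _ => ht.diag h l (fun a x => p a (top π l x)) (fun a => hp l a)) l trivial
  have : ∀ᶠ x in W l, ∀ a < top π l x, p a (top π l x) := by
    filter_upwards [ht.mono h l, h1] with x hx1 hx2 a ha
    obtain ⟨n, hn⟩ := (top_spec h π l x hx1.2).2 a ha
    have := (hx2 n).2 a hn
    rwa [top_st h] at this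
  exact this

end tree

end Pool.Agent.Lib.MP_491cc4_lc
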