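import Pool.Agent.Lib.MP_491cc4_lc.Basic

set_option autoImplicit false

open Set Filter Cardinal

namespace Pool.Agent.Lib.MP_491cc4_lc

variable {K : Type}

/-- a globally monotone cofinal map witnessing Tukey reducibility -/
structure TkMap (U : Ultrafilter K) {X : Type} (V : Ultrafilter X) (f : Set K → Set X) :
    Prop where
  mono : ∀ A B, A ⊆ B → f A ⊆ f B
  mem : ∀ B ∈ U, f B ∈ V
  cof : ∀ A ∈ V, ∃ B ∈ U, f B ⊆ A

def Tk (U : Ultrafilter K) {X : Type} (V : Ultrafilter X) : Prop := ∃ f, TkMap U V f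

theorem Tk.map {U : Ultrafilter K} {X Y : Type} {V : Ultrafilter X} (h : Tk U V) (r : X → Y) :
    Tk U (Ultrafilter.map r V) := by
  obtain ⟨f, hf⟩ := h
  refine ⟨fun B => r '' f B, fun A B hAB => Set.image_mono (hf.mono A B hAB), ?_, ?_⟩
  · intro B hB
    exact Ultrafilter.mem_map.2 (Filter.mem_of_superset (hf.mem B hB) (Set.subset_preimage_image _ _))
  · intro A hA
    obtain ⟨B, hB, hBA⟩ := hf.cof _ (Ultrafilter.mem_map.1 hA)
    exact ⟨B, hB, Set.image_subset_iff.2 hBA⟩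

theorem Tk.cpl {U : Ultrafilter K} {X : Type} {V : Ultrafilter X} (h : Tk U V)
    {c : Cardinal.{0}} (hU : Cpl c (U : Filter K)) : Cpl c (V : Filter X) := by
  obtain ⟨f, hf⟩ := h
  intro ι p hι hp
  choose B hB hBp using fun i => hf.cof {x | p i x} (hp i)
  have h1 : {a | ∀ i, a ∈ B i} ∈ U := hU ι (fun i a => a ∈ B i) hι hB
  filter_upwards [hf.mem _ h1] with x hx i
  exact hBp i (hf.mono {a | ∀ i, a ∈ B i} _ (fun a ha => ha i) hx)

/-- shrinking the values of a cofinal map -/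
theorem TkMap.inter {U : Ultrafilter K} {X : Type} {V : Ultrafilter X} {f : Set K → Set X}
    (hf : TkMap U V f) (g : Set K → Set X) (hg : ∀ A B, A ⊆ B → g A ⊆ g B)
    (hgm : ∀ B ∈ U, g B ∈ V) : TkMap U V (fun B => f B ∩ g B) := by
  refine ⟨fun A B hAB => Set.inter_subset_inter (hf.mono A B hAB) (hg A B hAB),
    fun B hB => Filter.inter_mem (hf.mem B hB) (hgm B hB), fun A hA => ?_⟩
  obtain ⟨B, hB, hBA⟩ := hf.cof A hA
  exact ⟨B, hB, Set.inter_subset_left.trans hBA⟩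

variable [LinearOrder K]

/-- Lipschitz canonization of a monotone map -/
theorem lipschitz {U : Ultrafilter K} (h : NM U) {X : Type} (ρ : X → K)
    (hρ : ∀ γ, Cardinal.mk {x | ρ x = γ} < Cardinal.mk K) (f : Set K → Set X)
    (hf : ∀ A B, A ⊆ B → f A ⊆ f B) (A0 : Set K) (hA0 : A0 ∈ U) :
    ∃ A ∈ U, A ⊆ A0 ∧ ∀ B ∈ U, B ⊆ A → ∀ x,
      (x ∈ f B ↔ x ∈ f ((B ∩ Set.Iic (ρ x)) ∪ (A \ Set.Iic (ρ x)))) := by
  classical
  have h1 : ∀ (x : X) (s : Set K), ∃ C ∈ U,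
      (∃ C' ∈ U, x ∉ f (s ∪ (C' \ Set.Iic (ρ x)))) → x ∉ f (s ∪ (C \ Set.Iic (ρ x))) := by
    intro x s
    by_cases hx : ∃ C' ∈ U, x ∉ f (s ∪ (C' \ Set.Iic (ρ x)))
    · obtain ⟨C', hC', hx'⟩ := hx
      exact ⟨C', hC', fun _ => hx'⟩
    · exact ⟨Set.univ, Filter.univ_mem, fun h' => absurd h' hx⟩
  choose C hC hCx using h1
  have h2 : ∀ γ, ∀ᶠ a in U, ∀ x ∈ {x | ρ x = γ}, ∀ s ∈ {s : Set K | s ⊆ Set.Iic γ},
      a ∈ C x s := by
    intro γ
    refine h.cpl.ball _ _ (hρ γ) (fun x _ => ?_)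
    exact h.cpl.ball _ _ (h.mk_subsets (h.iic γ)) (fun s _ => hC x s)
  have h3 := h.diag _ h2
  refine ⟨{a | ∀ γ < a, ∀ x ∈ {x | ρ x = γ}, ∀ s ∈ {s : Set K | s ⊆ Set.Iic γ}, a ∈ C x s} ∩ A0,
    Filter.inter_mem h3 hA0, Set.inter_subset_right, ?_⟩
  intro B hB hBA x
  constructor
  · refine fun hx => hf _ _ ?_ hx
    intro a ha
    by_cases hax : a ∈ Set.Iic (ρ x)
    · exact Or.inl ⟨ha, hax⟩
    · exact Or.inr ⟨hBA ha, hax⟩
  · intro hx
    by_contra hxB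
    have h4 : x ∉ f ((B ∩ Set.Iic (ρ x)) ∪ (B \ Set.Iic (ρ x))) := by
      rwa [Set.inter_union_sdiff]
    refine hCx x _ ⟨B, hB, h4⟩ (hf _ _ ?_ hx)
    refine Set.union_subset_union_right _ ?_
    rintro a ⟨ha, hax⟩
    exact ⟨ha.1 (ρ x) (not_le.1 hax) x rfl _ Set.inter_subset_right, hax⟩

variable [WellFoundedLT K]

/-- a normal measure Tukey below a normal measure is equal to it -/
theorem normal_eq {U W : Ultrafilter K} (h : NM U) (hW : NM W) (hT : Tk U W) : W = U := by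
  classical
  by_contra hne
  obtain ⟨A0, hA0, hA0W⟩ : ∃ A0 ∈ U, A0 ∉ W := by
    by_contra hc
    push Not at hc
    apply hne
    have : (W : Filter K) ≤ U := fun s hs => hc s hs
    exact Ultrafilter.coe_injective (Ultrafilter.unique U this)
  obtain ⟨f, hf⟩ := hT
  obtain ⟨A, hA, hAA0, hL⟩ := lipschitz h (fun x : K => x) (fun γ => by
    have : {x : K | x = γ} = {γ} := rfl
    rw [this, Cardinal.mk_singleton]
    exact lt_trans Cardinal.one_lt_aleph0 h.unc) f hf.mono A0 hA0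
  have hE : ∀ᶠ x in W, x ∉ A :=
    Ultrafilter.eventually_not.2 (fun h' => hA0W (Filter.mem_of_superset h' hAA0))
  let G : K → Set K → Prop := fun x t => x ∈ f ((t ∩ Set.Iio x ∩ A) ∪ (A \ Set.Iic x))
  have hG : ∀ x, x ∉ A → ∀ B ∈ U, B ⊆ A → (x ∈ f B ↔ G x B) := by
    intro x hx B hB hBA
    rw [hL B hB hBA x]
    have : B ∩ Set.Iic x = B ∩ Set.Iio x ∩ A := by
      ext a
      simp only [Set.mem_inter_iff, Set.mem_Iic, Set.mem_Iio]
      constructor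
      · rintro ⟨ha, hax⟩
        refine ⟨⟨ha, lt_of_le_of_ne hax ?_⟩, hBA ha⟩
        rintro rfl
        exact hx (hBA ha)
      · rintro ⟨⟨ha, hax⟩, _⟩
        exact ⟨ha, hax.le⟩
    simp only [G, this]
  have hGc : ∀ x t t', (∀ y < x, (y ∈ t ↔ y ∈ t')) → G x t → G x t' := by
    intro x t t' htt hx
    have : t' ∩ Set.Iio x = t ∩ Set.Iio x := by
      ext a
      simp only [Set.mem_inter_iff, Set.mem_Iio]
      exact ⟨fun ha => ⟨(htt a ha.2).2 ha.1, ha.2⟩, fun ha => ⟨(htt a ha.2).1 ha.1, ha.2⟩⟩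
    simp only [G, this]
    exact hx
  let Y : K → Prop := (wellFounded_lt (α := K)).fix
    (fun x (rec : ∀ y, y < x → Prop) =>
      ¬ ∃ t, G x t ∧ ∀ y (hy : y < x), y ∉ A → G y t → rec y hy)
  have hY : ∀ x, Y x ↔ ¬ ∃ t, G x t ∧ ∀ y < x, y ∉ A → G y t → Y y := by
    intro x
    have : Y x = _ := WellFounded.fix_eq _ _ _
    rw [this]
  by_cases hYW : ∀ᶠ x in W, Y x
  · obtain ⟨B0, hB0, hB0Y⟩ := hf.cof _ hYW
    have hB : B0 ∩ A ∈ U := Filter.inter_mem hB0 hA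
    have hBY : f (B0 ∩ A) ⊆ {x | Y x} := (hf.mono _ _ Set.inter_subset_left).trans hB0Y
    obtain ⟨x, hx1, hx2⟩ := (hE.and (hf.mem _ hB)).exists
    refine (hY x).1 (hBY hx2) ⟨B0 ∩ A, (hG x hx1 _ hB Set.inter_subset_right).1 hx2, ?_⟩
    intro y _ hy hGy
    exact hBY ((hG y hy _ hB Set.inter_subset_right).2 hGy)
  · have hN := Ultrafilter.eventually_not.2 hYW
    have h1 : ∀ x, ∃ t, ¬ Y x → (G x t ∧ ∀ y < x, y ∉ A → G y t → Y y) := by
      intro x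
      by_cases hx : Y x
      · exact ⟨∅, fun h' => absurd hx h'⟩
      · rw [hY x, not_not] at hx
        obtain ⟨t, ht⟩ := hx
        exact ⟨t, fun _ => ht⟩
    choose t ht using h1
    obtain ⟨T, hT⟩ := hW.ineff t
    obtain ⟨y, hy1, hy2, hy3⟩ := (hE.and (hN.and hT)).exists
    obtain ⟨x, hx1, hx2, hx3⟩ := ((hW.tail y).and (hN.and hT)).exists
    refine hy2 ((ht x hx2).2 y hx1 hy1 ?_)
    refine hGc y T _ (fun z hz => (hx3 z (hz.trans hx1)).symm) ?_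
    exact hGc y _ T hy3 (ht y hy2).1

/-- `p` is a least non constant function modulo `V` -/
structure MinFun {X : Type} (V : Ultrafilter X) (p : X → K) : Prop where
  ncst : ∀ y, ∀ᶠ x in V, p x ≠ y
  min : ∀ q : X → K, (∀ᶠ x in V, q x < p x) → ∃ y, ∀ᶠ x in V, q x = y

omit [WellFoundedLT K] in
theorem MinFun.sets {X : Type} {V : Ultrafilter X} {p : X → K} (hp : MinFun V p)
    (t : X → Set K) : ∃ T : Set K, ∀ᶠ x in V, ∀ y < p x, (y ∈ t x ↔ y ∈ T) := by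
  classical
  refine ⟨{y | ∀ᶠ x in V, y ∈ t x}, ?_⟩
  by_contra hc
  have h1 := Ultrafilter.eventually_not.2 hc
  have h2 : ∀ x, ∃ d : K, (¬ ∀ y < p x, (y ∈ t x ↔ y ∈ {y | ∀ᶠ x in V, y ∈ t x})) →
      d < p x ∧ ¬ (d ∈ t x ↔ d ∈ {y | ∀ᶠ x in V, y ∈ t x}) := by
    intro x
    by_cases hx : ∀ y < p x, (y ∈ t x ↔ y ∈ {y | ∀ᶠ x in V, y ∈ t x})
    · exact ⟨p x, fun h' => absurd hx h'⟩
    · rw [not_forall] at hx
      obtain ⟨d, hd⟩ := hx
      rw [Classical.not_imp] at hd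
      exact ⟨d, fun _ => hd⟩
  choose d hd using h2
  obtain ⟨y, hy⟩ := hp.min d (by filter_upwards [h1] with x hx using (hd x hx).1)
  by_cases hyV : ∀ᶠ x in V, y ∈ t x
  · obtain ⟨x, hx1, hx2, hx3⟩ := (h1.and (hy.and hyV)).exists
    refine (hd x hx1).2 ?_
    rw [hx2]
    exact ⟨fun _ => hyV, fun _ => hx3⟩
  · obtain ⟨x, hx1, hx2, hx3⟩ := (h1.and (hy.and (Ultrafilter.eventually_not.2 hyV))).exists
    refine (hd x hx1).2 ?_
    rw [hx2]
    exact ⟨fun h' => absurd h' hx3, fun h' => absurd h' hyV⟩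

omit [LinearOrder K] [WellFoundedLT K] in
theorem exists_nonconst {U : Ultrafilter K} {X : Type} {V : Ultrafilter X} (hT : Tk U V)
    (hV : ∀ x, V ≠ pure x) : ∃ p : X → K, ∀ y, ∀ᶠ x in V, p x ≠ y := by
  classical
  by_contra hc
  have hc' : ∀ p : X → K, ∃ y, ∀ᶠ x in V, p x = y := by
    intro p
    by_contra h'
    refine hc ⟨p, fun y => Ultrafilter.eventually_not.2 (fun h'' => h' ⟨y, h''⟩)⟩
  obtain ⟨f, hf⟩ := hT
  have h1 : ∀ x : X, ∃ B ∈ U, x ∉ f B := by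
    intro x
    have : ({x} : Set X)ᶜ ∈ V := by
      rw [Ultrafilter.compl_mem_iff_notMem]
      intro hx
      exact hV x (Ultrafilter.coe_injective (Ultrafilter.unique (pure x)
        (Filter.le_pure_iff.2 hx)))
    obtain ⟨B, hB, hBx⟩ := hf.cof _ this
    exact ⟨B, hB, fun h' => hBx h' rfl⟩
  choose φ hφ hφx using h1
  have h2 : ∀ᶠ x in V, φ x = {y | ∀ᶠ x in V, y ∈ φ x} := by
    by_contra hc2
    have h3 := Ultrafilter.eventually_not.2 hc2
    obtain ⟨x0, _⟩ := h3.exists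
    obtain ⟨a0, _⟩ := Ultrafilter.nonempty_of_mem (hφ x0)
    have h4 : ∀ x, ∃ d : K, φ x ≠ {y | ∀ᶠ x in V, y ∈ φ x} →
        ¬ (d ∈ φ x ↔ d ∈ {y | ∀ᶠ x in V, y ∈ φ x}) := by
      intro x
      by_cases hx : φ x = {y | ∀ᶠ x in V, y ∈ φ x}
      · exact ⟨a0, fun h' => absurd hx h'⟩
      · rw [Set.ext_iff, not_forall] at hx
        obtain ⟨d, hd⟩ := hx
        exact ⟨d, fun _ => hd⟩
    choose d hd using h4
    obtain ⟨y, hy⟩ := hc' d
    by_cases hyV : ∀ᶠ x in V, y ∈ φ x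
    · obtain ⟨x, hx1, hx2, hx3⟩ := (h3.and (hy.and hyV)).exists
      refine hd x hx1 ?_
      rw [hx2]
      exact ⟨fun _ => hyV, fun _ => hx3⟩
    · obtain ⟨x, hx1, hx2, hx3⟩ := (h3.and (hy.and (Ultrafilter.eventually_not.2 hyV))).exists
      refine hd x hx1 ?_
      rw [hx2]
      exact ⟨fun h' => absurd h' hx3, fun h' => absurd h' hyV⟩
  obtain ⟨x0, hx0⟩ := h2.exists
  have hB : {y | ∀ᶠ x in V, y ∈ φ x} ∈ U := hx0 ▸ hφ x0
  obtain ⟨x, hx1, hx2⟩ := (h2.and (hf.mem _ hB)).exists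
  exact hφx x (hx1 ▸ hx2)

/-- the order modulo a countably complete ultrafilter is well founded -/
theorem wf_mod {X α : Type*} (r : α → α → Prop) (hr : WellFounded r) (F : Filter X) [F.NeBot]
    (hF : ∀ p : ℕ → X → Prop, (∀ n, ∀ᶠ x in F, p n x) → ∀ᶠ x in F, ∀ n, p n x) :
    WellFounded (fun q p : X → α => ∀ᶠ x in F, r (q x) (p x)) := by
  rw [wellFounded_iff_isEmpty_descending_chain]
  refine ⟨fun ⟨g, hg⟩ => ?_⟩
  obtain ⟨x, hx⟩ := (hF _ hg).exists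
  exact (wellFounded_iff_isEmpty_descending_chain.1 hr).false ⟨fun n => g n x, hx⟩

theorem exists_minFun {U : Ultrafilter K} (h : NM U) {X : Type} {V : Ultrafilter X}
    (hT : Tk U V) (hV : ∀ x, V ≠ pure x) :
    ∃ p : X → K, MinFun V p ∧ Ultrafilter.map p V = U := by
  have hc := hT.cpl h.cpl
  have hwf := wf_mod (α := K) (· < ·) wellFounded_lt (V : Filter X)
    (fun p hp => hc ℕ p (by simpa using h.unc) hp)
  obtain ⟨p, hp, hmin⟩ := hwf.has_min {p | ∀ y, ∀ᶠ x in V, p x ≠ y} (exists_nonconst hT hV)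
  have hm : MinFun V p := by
    refine ⟨hp, fun q hq => ?_⟩
    by_contra hcon
    exact hmin q (fun y => Ultrafilter.eventually_not.2 (fun h' => hcon ⟨y, h'⟩)) hq
  refine ⟨p, hm, normal_eq h ⟨h.unc, h.seg, hc.map p, ?_, ?_⟩ (hT.map p)⟩
  · intro s hs
    refine le_antisymm (Cardinal.mk_set_le s) (not_lt.1 (fun hlt => ?_))
    obtain ⟨y, hy⟩ := hc.const p s hlt hs
    obtain ⟨x, hx1, hx2⟩ := (hy.and (hp y)).exists
    exact hx2 hx1
  · intro g hg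
    exact hm.min (fun x => g (p x)) hg

end Pool.Agent.Lib.MP_491cc4_lc
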