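import Pool.Agent.Lib.MP_491cc4_lc.Ladder

set_option autoImplicit false

open Set Filter Cardinal

namespace Pool.Agent.Lib.MP_491cc4_lc

variable {K : Type} [LinearOrder K]

theorem exists_bound {z a0 : K} (h0 : a0 < z) (l : List K) (hl : ∀ b ∈ l, b < z) :
    ∃ a < z, ∀ b ∈ l, b ≤ a := by
  induction l with
  | nil => exact ⟨a0, h0, fun b hb => absurd hb List.not_mem_nil⟩
  | cons c l ih =>
    obtain ⟨a, ha, hb⟩ := ih (fun b hb => hl b (List.mem_cons_of_mem _ hb))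
    refine ⟨max a c, max_lt ha (hl c List.mem_cons_self), fun b hb' => ?_⟩
    rcases List.mem_cons.1 hb' with rfl | hb'
    · exact le_max_right _ _
    · exact (hb b hb').trans (le_max_left _ _)

theorem NM.mk_lists {U : Ultrafilter K} (h : NM U) (a : K) :
    Cardinal.mk {l : List K | ∀ b ∈ l, b ≤ a} < Cardinal.mk K := by
  have h1 : {l : List K | ∀ b ∈ l, b ≤ a} ⊆
      Set.range (List.map (Subtype.val : Set.Iic a → K)) := by
    intro l hl
    refine ⟨l.attach.map (fun b => ⟨b.1, hl b.1 b.2⟩), ?_⟩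
    simp [List.map_map, Function.comp_def]
  refine lt_of_le_of_lt ((Cardinal.mk_le_mk_of_subset h1).trans Cardinal.mk_range_le) ?_
  exact lt_of_le_of_lt (Cardinal.mk_list_le_max _) (max_lt h.unc (h.iic a))

/-- diagonal intersections indexed by finite lists -/
theorem NM.diagL {U : Ultrafilter K} (h : NM U) (p : List K → K → Prop)
    (hp : ∀ l, ∀ᶠ z in U, p l z) : ∀ᶠ z : K in U, ∀ l, (∀ b ∈ l, b < z) → p l z := by
  obtain ⟨a0, _⟩ := (hp []).exists
  filter_upwards [h.diag (fun a z => ∀ l ∈ {l : List K | ∀ b ∈ l, b ≤ a}, p l z)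
    (fun a => h.cpl.ball _ p (h.mk_lists a) (fun l _ => hp l)), h.tail a0] with z hz hz0 l hl
  obtain ⟨a, ha, hb⟩ := exists_bound hz0 l hl
  exact hz a ha l hb

theorem NM.mk_list {U : Ultrafilter K} (h : NM U) : Cardinal.mk (List K) ≤ Cardinal.mk K :=
  (Cardinal.mk_list_le_max _).trans (max_le h.unc.le le_rfl)

omit [LinearOrder K] in
/-- an intersection of few ultrafilters is saturated -/
theorem sat_of_iSup {ι : Type} (P : ι → Ultrafilter K) (𝒜 : Set (Set K))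
    (h1 : ∀ A ∈ 𝒜, Aᶜ ∉ ⨆ i, (P i : Filter K))
    (h2 : ∀ A ∈ 𝒜, ∀ B ∈ 𝒜, A ≠ B → (A ∩ B)ᶜ ∈ ⨆ i, (P i : Filter K)) :
    Cardinal.mk 𝒜 ≤ Cardinal.mk ι := by
  have h3 : ∀ A : 𝒜, ∃ i, A.1 ∈ P i := by
    intro A
    by_contra hc
    push Not at hc
    exact h1 A.1 A.2 (Filter.mem_iSup.2 (fun i => Ultrafilter.compl_mem_iff_notMem.2 (hc i)))
  choose i hi using h3
  refine Cardinal.mk_le_of_injective (f := i) (fun A B hAB => ?_)
  by_contra hne
  have h4 := Filter.mem_iSup.1 (h2 A.1 A.2 B.1 B.2 (fun h' => hne (Subtype.ext h'))) (i A)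
  exact Ultrafilter.compl_mem_iff_notMem.1 h4 (Filter.inter_mem (hi A) (hAB ▸ hi B))

/-- a normal intersection of few ultrafilters admits no small guessing families -/
theorem no_guess {ι : Type} (hι : Cardinal.mk ι ≤ Cardinal.mk K)
    (hK : Cardinal.aleph0 ≤ Cardinal.mk K) (P : ι → Ultrafilter K)
    (hF : NF (⨆ i, (P i : Filter K))) (𝒜 : K → Set (Set K))
    (h1 : ∀ x, Cardinal.mk (𝒜 x) ≤ Cardinal.mk (Set.Iio x)) :
    ∃ B : Set K, ¬ ∀ᶠ x in ⨆ i, (P i : Filter K), B ∩ Set.Iio x ∈ 𝒜 x := by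
  classical
  by_contra hc
  push Not at hc
  have h2 : ∀ x, ∃ e : K → Set K, ∀ s ∈ 𝒜 x, ∃ ξ < x, e ξ = s := by
    intro x
    obtain ⟨j⟩ := (Cardinal.le_def _ _).1 (h1 x)
    refine ⟨fun ξ => if hξ : ∃ s, (j s).1 = ξ then hξ.choose.1 else ∅, fun s hs => ?_⟩
    refine ⟨(j ⟨s, hs⟩).1, (j ⟨s, hs⟩).2, ?_⟩
    have hξ : ∃ s', (j s').1 = (j ⟨s, hs⟩).1 := ⟨_, rfl⟩
    simp only [dif_pos hξ]
    exact congrArg Subtype.val (j.injective (Subtype.ext hξ.choose_spec))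
  choose e he using h2
  have h3 : ∀ B : Set K, ∃ z : ι × K, ∀ᶠ x : K in P z.1, e x z.2 = B ∩ Set.Iio x := by
    intro B
    by_contra hB
    have h4 := hF.diag (fun ξ x => e x ξ ≠ B ∩ Set.Iio x) (fun ξ => Filter.mem_iSup.2 (fun i =>
      Ultrafilter.eventually_not.2 (fun h' => hB ⟨(i, ξ), h'⟩)))
    have := hF.ne
    obtain ⟨x, hx1, hx2⟩ := (h4.and (hc B)).exists
    obtain ⟨ξ, hξ, hξe⟩ := he x _ hx2
    exact hx1 ξ hξ hξe
  choose z hz using h3
  have h5 : Function.Injective z := by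
    intro B B' hBB
    ext a
    have h6 : ∀ᶠ x : K in P (z B).1, a < x := Filter.mem_iSup.1 (hF.tail a) _
    have h7 := hz B'
    rw [← hBB] at h7
    obtain ⟨x, hx1, hx2, hx3⟩ := (h6.and ((hz B).and h7)).exists
    have h8 : B ∩ Set.Iio x = B' ∩ Set.Iio x := hx2.symm.trans hx3
    constructor
    · intro ha
      exact (show a ∈ B' ∩ Set.Iio x from h8 ▸ ⟨ha, hx1⟩).1
    · intro ha
      exact (show a ∈ B ∩ Set.Iio x from h8.symm ▸ ⟨ha, hx1⟩).1
  have h9 := Cardinal.mk_le_of_injective h5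
  rw [Cardinal.mk_set, Cardinal.mk_prod, Cardinal.lift_id, Cardinal.lift_id] at h9
  have h10 : Cardinal.mk ι * Cardinal.mk K ≤ Cardinal.mk K :=
    (mul_le_mul_left hι _).trans (Cardinal.mul_eq_self hK).le
  exact absurd (h9.trans h10) (not_le.2 (Cardinal.cantor _))

/-- uniform filters on an initial segment -/
def Unif (x : K) (G : Filter K) : Prop :=
  (∀ a < x, Set.Ioo a x ∈ G) ∧ ∀ s ∈ G, ¬ s.Countable

variable [WellFoundedLT K] {X : Type}
variable {U : Ultrafilter K} {W : List K → Ultrafilter X} {π : List K → X → K}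

theorem IsTree.nf (ht : IsTree U W π) (h : NM U) : NF (⨆ l, (pr W π l : Filter K)) := by
  refine ⟨?_, fun a => Filter.mem_iSup.2 (fun l => ht.pr_tail h l a), fun p hp =>
    Filter.mem_iSup.2 (fun l => ht.pr_diag h p (fun l a => Filter.mem_iSup.1 (hp a) l) l)⟩
  exact Filter.neBot_of_le (le_iSup (fun l => (pr W π l : Filter K)) [])

theorem IsTree.tukey (ht : IsTree U W π) (h : NM U) :
    ∃ f : Set K → Set K, (∀ A B, A ⊆ B → f A ⊆ f B) ∧
      (∀ B ∈ U, f B ∈ ⨆ l, (pr W π l : Filter K)) ∧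
      ∀ A ∈ ⨆ l, (pr W π l : Filter K), ∃ B ∈ U, f B ⊆ A := by
  choose f hf using fun l => (ht.tk l).map (top π l)
  refine ⟨fun B => ⋃ l, f l (B ∩ {z | ∀ b ∈ l, b < z}), fun A B hAB => Set.iUnion_mono
    (fun l => (hf l).mono _ _ (Set.inter_subset_inter_left _ hAB)), fun B hB => ?_,
    fun A hA => ?_⟩
  · refine Filter.mem_iSup.2 (fun l => Filter.mem_of_superset ((hf l).mem _
      (Filter.inter_mem hB ?_)) (Set.subset_iUnion (fun l => f l (B ∩ {z | ∀ b ∈ l, b < z})) l))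
    exact (Filter.eventually_all_finite (List.finite_toSet l)).2 (fun b _ => h.tail b)
  · choose B hB hBA using fun l => (hf l).cof A (Filter.mem_iSup.1 hA l)
    refine ⟨_, h.diagL (fun l z => z ∈ B l) hB, Set.iUnion_subset (fun l => ?_)⟩
    exact ((hf l).mono _ _ (fun z hz => hz.1 l hz.2)).trans (hBA l)

theorem IsTree.nolimit1 (ht : IsTree U W π) (h : NM U) (𝒰 : K → Filter K) (l : List K) :
    ∃ A ∈ U, ∀ᶠ y : K in pr W π l, Unif y (𝒰 y) → A ∉ 𝒰 y := by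
  classical
  by_contra hcon
  have hall : ∀ A ∈ U, ∀ᶠ y : K in pr W π l, Unif y (𝒰 y) ∧ A ∈ 𝒰 y := by
    intro A hA
    have := Ultrafilter.eventually_not.2 (fun h' => hcon ⟨A, hA, h'⟩)
    filter_upwards [this] with y hy
    rw [Classical.not_imp, not_not] at hy
    exact hy
  obtain ⟨f, hf⟩ : Tk U (pr W π l) := (ht.tk l).map (top π l)
  obtain ⟨A, hA, hAA0, hL⟩ := lipschitz h (fun x : K => x) (fun γ => by
    have : {x : K | x = γ} = {γ} := rfl
    rw [this, Cardinal.mk_singleton]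
    exact lt_trans Cardinal.one_lt_aleph0 h.unc) f hf.mono _ h.not_cofW
  have hE : ∀ᶠ x : K in pr W π l, x ∉ A := by
    filter_upwards [ht.cof h l] with x hx hxA using hAA0 hxA hx
  let G : K → Set K → Prop := fun x t => x ∈ f ((t ∩ Set.Iio x ∩ A) ∪ (A \ Set.Iic x))
  have hG : ∀ x, x ∉ A → ∀ B ∈ U, (x ∈ f (B ∩ A) ↔ G x B) := by
    intro x hx B hB
    rw [hL (B ∩ A) (Filter.inter_mem hB hA) Set.inter_subset_right x]
    have : B ∩ A ∩ Set.Iic x = B ∩ Set.Iio x ∩ A := by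
      ext a
      simp only [Set.mem_inter_iff, Set.mem_Iic, Set.mem_Iio]
      constructor
      · rintro ⟨⟨ha, haA⟩, hax⟩
        refine ⟨⟨ha, lt_of_le_of_ne hax ?_⟩, haA⟩
        rintro rfl
        exact hx haA
      · rintro ⟨⟨ha, hax⟩, haA⟩
        exact ⟨⟨ha, haA⟩, hax.le⟩
    simp only [G, this]
  have hGc : ∀ x t t', (∀ y < x, (y ∈ t ↔ y ∈ t')) → G x t → G x t' := by
    intro x t t' htt hx
    have : t' ∩ Set.Iio x = t ∩ Set.Iio x := by
      ext a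
      simp only [Set.mem_inter_iff, Set.mem_Iio]
      exact ⟨fun ha => ⟨(htt a ha.2).2 ha.1, ha.2⟩, fun ha => ⟨(htt a ha.2).1 ha.1, ha.2⟩⟩
    simp only [G, this]
    exact hx
  have hGU : ∀ B ∈ U, ∀ᶠ x : K in pr W π l, x ∉ A ∧ G x B := by
    intro B hB
    filter_upwards [hE, hf.mem _ (Filter.inter_mem hB hA)] with x hx1 hx2
    exact ⟨hx1, (hG x hx1 B hB).1 hx2⟩
  let Y : K → Prop := (wellFounded_lt (α := K)).fix
    (fun x (rec : ∀ y, y < x → Prop) =>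
      ¬ ∃ t ∈ 𝒰 x, ∀ y (hy : y < x), y ∉ A → G y t → rec y hy)
  have hY : ∀ x, Y x ↔ ¬ ∃ t ∈ 𝒰 x, ∀ y < x, y ∉ A → G y t → Y y := by
    intro x
    have : Y x = _ := WellFounded.fix_eq _ _ _
    rw [this]
  clear_value Y
  have hN : ∀ᶠ x : K in pr W π l, ¬ Y x := by
    refine Ultrafilter.eventually_not.2 (fun hYW => ?_)
    obtain ⟨B, hB, hBY⟩ := hf.cof _ hYW
    obtain ⟨x, hx1, hx2⟩ := (hYW.and (hall B hB)).exists
    refine (hY x).1 hx1 ⟨B, hx2.2, fun y _ hy hGy => ?_⟩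
    exact hBY (hf.mono _ _ Set.inter_subset_left ((hG y hy B hB).2 hGy))
  have h1 : ∀ x, ∃ t, ¬ Y x → (t ∈ 𝒰 x ∧ ∀ y < x, y ∉ A → G y t → Y y) := by
    intro x
    by_cases hx : Y x
    · exact ⟨∅, fun h' => absurd hx h'⟩
    · rw [hY x, not_not] at hx
      obtain ⟨t, ht⟩ := hx
      exact ⟨t, fun _ => ht⟩
  choose t htY using h1
  let a : List K → Set K := fun l' => {z | ∀ᶠ x in W l', z ∈ t (top π l' x)}
  have hP : ∀ l', ∀ᶠ x in W l', ∀ z < π l' x, (z ∈ t (top π l' x) ↔ z ∈ a l') := by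
    intro l'
    refine ht.diag h l' (fun z x => (z ∈ t (top π l' x) ↔ z ∈ a l')) (fun z => ?_)
    by_cases hz : z ∈ a l'
    · filter_upwards [hz] with x hx using ⟨fun _ => hz, fun _ => hx⟩
    · filter_upwards [Ultrafilter.eventually_not.2 hz] with x hx using
        ⟨fun h' => absurd h' hx, fun h' => absurd h' hz⟩
  clear_value a
  have hnull : ∀ l', (∀ᶠ y : K in pr W π l', ¬ Y y) → a l' ∉ U := by
    intro l' hl' hal
    obtain ⟨z, hz1, hz2, hz3⟩ := (hN.and (hGU _ hal)).exists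
    have hl'' : ∀ᶠ x in W l', ¬ Y (top π l' x) := hl'
    obtain ⟨x, hx1, hx2, hx3, hx4⟩ := (hl''.and ((hP l').and ((ht.mono h l').and
      (ht.proj l' _ (h.tail z))))).exists
    have h2 : π l' x < top π l' x := (top_spec h π l' x hx3.2).1 0
    refine hz1 ((htY _ hx1).2 z (hx4.trans h2) hz2 (hGc z _ _ (fun y hy => ?_) hz3))
    exact (hx2 y (hy.trans hx4)).symm
  have hD := h.diagL (fun l' z => a l' ∉ U → z ∉ a l') (fun l' => by
    by_cases hal : a l' ∈ U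
    · exact Filter.Eventually.of_forall (fun _ h' => absurd hal h')
    · filter_upwards [Ultrafilter.compl_mem_iff_notMem.2 hal] with z hz _ using hz)
  have h3 : ∀ᶠ x in W l, Unif (top π l x) (𝒰 (top π l x)) ∧
      {z | ∀ l', (∀ b ∈ l', b < z) → a l' ∉ U → z ∉ a l'} ∈ 𝒰 (top π l x) := hall _ hD
  have h4 := ht.typ h (fun l' => ∀ᶠ y : K in pr W π l', ¬ Y y)
    (fun l' hl' => ht.pr_down h l' _ hl') _ (fun l' _ => hP l') l hN
  have hN' : ∀ᶠ x in W l, ¬ Y (top π l x) := hN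
  obtain ⟨x, hx1, hx2, hx3, hx4⟩ := (h3.and (h4.and (hN'.and (ht.mono h l)))).exists
  obtain ⟨hs1, hs2⟩ := top_spec h π l x hx4.2
  refine hx1.1.2 _ (Filter.inter_mem (Filter.inter_mem (htY _ hx3).1 hx1.2)
    (hx1.1.1 _ (hs1 0))) ((Set.countable_range (lad π l x)).mono ?_)
  rintro z ⟨⟨hz1, hz2⟩, hz3, hz4⟩
  by_contra hzr
  have hex : ∃ n, z < lad π l x n := hs2 z hz4
  have h5 := Nat.find_spec hex
  obtain ⟨m, hm⟩ : ∃ m, Nat.find hex = m + 1 := by
    refine Nat.exists_eq_succ_of_ne_zero (fun h0 => ?_)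
    rw [h0] at h5
    exact lt_asymm h5 hz3
  have h6 : lad π l x m < z := by
    refine lt_of_le_of_ne (not_lt.1 (Nat.find_min hex (by omega))) (fun h' => hzr ⟨m, h'⟩)
  rw [hm] at h5
  refine hz2 (st π l x (m + 1)) (fun b hb => ?_) (hnull _ (hx2 (m + 1)).1) ?_
  · rcases List.mem_cons.1 hb with rfl | hb
    · exact h6
    · exact (hx4.1 m b hb).trans h6
  · refine ((hx2 (m + 1)).2 z h5).1 ?_
    rw [top_st h]
    exact hz1

theorem IsTree.nolimit (ht : IsTree U W π) (h : NM U) (𝒰 : K → Filter K) :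
    ∃ A ∈ U, ∀ᶠ y in ⨆ l, (pr W π l : Filter K), Unif y (𝒰 y) → A ∉ 𝒰 y := by
  choose A hA hA' using fun l => ht.nolimit1 h 𝒰 l
  refine ⟨_, h.diagL (fun l z => z ∈ A l) hA, Filter.mem_iSup.2 (fun l => ?_)⟩
  have h1 : ∀ᶠ y : K in pr W π l, ∀ b ∈ l, b < y :=
    (Filter.eventually_all_finite (List.finite_toSet l)).2 (fun b _ => ht.pr_tail h l b)
  filter_upwards [hA' l, h1] with y hy1 hy2 hu hm
  refine hy1 hu ?_
  have h2 : ∀ᶠ z in 𝒰 y, ∀ b ∈ l, b < z :=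
    (Filter.eventually_all_finite (List.finite_toSet l)).2 (fun b hb =>
      Filter.mem_of_superset (hu.1 b (hy2 b hb)) (fun z hz => hz.1))
  filter_upwards [hm, h2] with z hz1 hz2 using hz1 l hz2

end Pool.Agent.Lib.MP_491cc4_lc
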