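import Pool.Agent.Lib.MP_491cc4_lc.Lip

set_option autoImplicit false

open Set Filter Cardinal

namespace Pool.Agent.Lib.MP_491cc4_lc

theorem factor {X Y Z : Type} {V : Ultrafilter X} (p : X → Y) (r : X → Z) (S : X → Prop)
    (hS : ∀ᶠ x in V, S x) (h : ∀ x x', S x → S x' → p x = p x' → r x = r x') :
    ∃ g : Y → Z, ∀ᶠ x in V, r x = g (p x) := by
  classical
  obtain ⟨x0, _⟩ := hS.exists
  refine ⟨fun y => if hy : ∃ x, S x ∧ p x = y then r hy.choose else r x0, ?_⟩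
  filter_upwards [hS] with x hx
  have hy : ∃ x', S x' ∧ p x' = p x := ⟨x, hx, rfl⟩
  rw [dif_pos hy]
  exact h _ _ hx hy.choose_spec.1 hy.choose_spec.2.symm

variable {K : Type} [LinearOrder K] [WellFoundedLT K]

omit [WellFoundedLT K] in
theorem small_fun {U : Ultrafilter K} (h : NM U) {X : Type} {V : Ultrafilter X} (hT : Tk U V)
    {p : X → K} (hp : MinFun V p) (hpU : Ultrafilter.map p V = U) (r : X → K) (b : K → K)
    (hr : ∀ᶠ x in V, r x ≤ b (p x)) : ∃ g : K → K, ∀ᶠ x in V, r x = g (p x) := by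
  classical
  obtain ⟨f0, hf0⟩ := hT.map (fun x => (p x, r x))
  have hf := hf0.inter (fun B => {z : K × K | z.1 ∈ B ∧ z.2 ≤ b z.1})
    (fun A B hAB z hz => ⟨hAB hz.1, hz.2⟩) (fun B hB => by
      rw [← hpU] at hB
      exact Filter.inter_mem (Ultrafilter.mem_map.1 hB) hr)
  set f : Set K → Set (K × K) := fun B => f0 B ∩ {z : K × K | z.1 ∈ B ∧ z.2 ≤ b z.1} with hfdef
  have hfb : ∀ B z, z ∈ f B → z.1 ∈ B ∧ z.2 ≤ b z.1 := fun B z hz => hz.2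
  clear_value f
  obtain ⟨A, hA, hAA0, hL⟩ := lipschitz h (fun z : K × K => max z.1 z.2) (fun γ => by
    refine lt_of_le_of_lt ?_ (h.mk_prod (h.iic γ) (h.iic γ))
    refine Cardinal.mk_le_of_injective
      (f := fun z : {z : K × K | max z.1 z.2 = γ} =>
        ((⟨z.1.1, (le_max_left _ _).trans (le_of_eq z.2)⟩ : Set.Iic γ),
          (⟨z.1.2, (le_max_right _ _).trans (le_of_eq z.2)⟩ : Set.Iic γ))) ?_
    rintro ⟨⟨a, a'⟩, ha⟩ ⟨⟨c, c'⟩, hc⟩ hac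
    simp only [Prod.mk.injEq, Subtype.mk.injEq] at hac
    obtain ⟨rfl, rfl⟩ := hac
    rfl) f hf.mono {a | ∀ γ < a, b γ < a} (h.diag _ (fun γ => h.tail (b γ)))
  let Φ : ∀ α : K, {s : Set K | s ⊆ Set.Iic α} → Set K :=
    fun α s => {β | (α, β) ∈ f (s.1 ∪ (A \ Set.Iic α))}
  choose Z hZ using fun α => split_sets (Φ α)
  obtain ⟨B0, hB0, hB0Z⟩ : ∃ B0 ∈ U, (f B0 ⊆ {z | z.2 ∈ Z z.1} ∨ f B0 ⊆ {z | z.2 ∈ Z z.1}ᶜ) := by
    rcases Ultrafilter.mem_or_compl_mem (Ultrafilter.map (fun x => (p x, r x)) V)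
      {z | z.2 ∈ Z z.1} with h' | h'
    · obtain ⟨B0, hB0, hB⟩ := hf.cof _ h'
      exact ⟨B0, hB0, Or.inl hB⟩
    · obtain ⟨B0, hB0, hB⟩ := hf.cof _ h'
      exact ⟨B0, hB0, Or.inr hB⟩
  have hB : B0 ∩ A ∈ U := Filter.inter_mem hB0 hA
  have key : ∀ α β, β ∈ Φ α ⟨B0 ∩ A ∩ Set.Iic α, Set.inter_subset_right⟩ → (α, β) ∈ f B0 := by
    intro α β hβ
    refine hf.mono _ _ Set.inter_subset_left ((hL _ hB Set.inter_subset_right (α, β)).2
      (hf.mono _ _ ?_ hβ))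
    rintro a (ha | ha)
    · exact Or.inl ⟨ha.1, le_trans ha.2 (le_max_left _ _)⟩
    · refine Or.inr ⟨ha.1, ?_⟩
      have h1 : α < a := not_le.1 ha.2
      have h2 : β < a := lt_of_le_of_lt (hfb _ _ hβ).2 (hAA0 ha.1 α h1)
      exact not_le.2 (max_lt h1 h2)
  have hsm : ∀ α, Cardinal.mk (Φ α ⟨B0 ∩ A ∩ Set.Iic α, Set.inter_subset_right⟩) ≤
      Cardinal.mk ({s : Set K | s ⊆ Set.Iic α} × Bool) := by
    intro α
    by_contra hc
    obtain ⟨⟨y, hy, hyZ⟩, ⟨y', hy', hyZ'⟩⟩ := hZ α _ (not_le.1 hc)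
    rcases hB0Z with h' | h'
    · exact hyZ' (h' (key α y' hy'))
    · exact h' (key α y hy) hyZ
  have hcode : ∀ α, ∃ e : K → Set K × Bool,
      Set.InjOn e (Φ α ⟨B0 ∩ A ∩ Set.Iic α, Set.inter_subset_right⟩) ∧
        ∀ β, (e β).1 ⊆ Set.Iic α := by
    intro α
    obtain ⟨e⟩ := (Cardinal.le_def _ _).1 (hsm α)
    refine ⟨fun β => if hβ : β ∈ Φ α ⟨B0 ∩ A ∩ Set.Iic α, Set.inter_subset_right⟩ then
      ((e ⟨β, hβ⟩).1.1, (e ⟨β, hβ⟩).2) else (∅, true), ?_, ?_⟩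
    · intro β hβ β' hβ' hββ
      simp only [hβ, hβ', dif_pos, Prod.mk.injEq] at hββ
      have : e ⟨β, hβ⟩ = e ⟨β', hβ'⟩ := Prod.ext (Subtype.ext hββ.1) hββ.2
      exact congrArg Subtype.val (e.injective this)
    · intro β
      by_cases hβ : β ∈ Φ α ⟨B0 ∩ A ∩ Set.Iic α, Set.inter_subset_right⟩
      · simp only [hβ, dif_pos]
        exact (e ⟨β, hβ⟩).1.2
      · simp only [hβ, dif_neg, not_false_eq_true]
        exact Set.empty_subset _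
  choose e he1 he2 using hcode
  obtain ⟨T, hT1⟩ := hp.sets (fun x => (e (p x) (r x)).1)
  obtain ⟨q, hq⟩ := (hT.cpl h.cpl).const
    (fun x => ((decide (p x ∈ (e (p x) (r x)).1), (e (p x) (r x)).2) : Bool × Bool)) Set.univ
    (lt_trans (Cardinal.lt_aleph0_of_finite _) h.unc) (Filter.Eventually.of_forall (fun _ => trivial))
  have hΦ : ∀ᶠ x in V, r x ∈ Φ (p x) ⟨B0 ∩ A ∩ Set.Iic (p x), Set.inter_subset_right⟩ := by
    have := Ultrafilter.mem_map.1 (hf.mem _ hB)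
    filter_upwards [this] with x hx
    refine hf.mono _ _ ?_ hx
    intro a ha
    by_cases hax : a ∈ Set.Iic (p x)
    · exact Or.inl ⟨ha, hax⟩
    · exact Or.inr ⟨ha.2, hax⟩
  refine factor p r _ (hT1.and (hq.and hΦ)) ?_
  rintro x x' ⟨hx1, hx2, hx3⟩ ⟨hx1', hx2', hx3'⟩ hxx
  rw [← hxx] at hx1' hx2' hx3'
  refine he1 (p x) hx3 hx3' ?_
  have h23 := hx2.trans hx2'.symm
  simp only [Prod.mk.injEq, decide_eq_decide] at h23
  refine Prod.ext ?_ h23.2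
  ext a
  by_cases ha : a ≤ p x
  · rcases ha.lt_or_eq with ha | ha
    · rw [hx1 a ha, hx1' a ha]
    · rw [ha]; exact h23.1
  · exact ⟨fun h' => absurd (he2 _ _ h') ha, fun h' => absurd (he2 _ _ h') ha⟩

omit [WellFoundedLT K] in
theorem small_fun' {U : Ultrafilter K} (h : NM U) {X Y : Type} {V : Ultrafilter X} (hT : Tk U V)
    {p : X → K} (hp : MinFun V p) (hpU : Ultrafilter.map p V = U) (r : X → Y) (R : K → Set Y)
    (hR : ∀ α, Cardinal.mk (R α) < Cardinal.mk K)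
    (hr : ∀ᶠ x in V, r x ∈ R (p x)) : ∃ g : K → Y, ∀ᶠ x in V, r x = g (p x) := by
  choose b e he1 he2 using fun α => h.exists_emb (R α) (hR α)
  obtain ⟨g, hg⟩ := small_fun h hT hp hpU (fun x => e (p x) (r x)) b (by
    filter_upwards [hr] with x hx using (he2 _ _ hx).le)
  refine factor p r _ (hr.and hg) ?_
  rintro x x' ⟨hx1, hx2⟩ ⟨hx1', hx2'⟩ hxx
  rw [← hxx] at hx1' hx2'
  exact he1 _ hx1 hx1' (hx2.trans hx2'.symm)

end Pool.Agent.Lib.MP_491cc4_lc
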