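import Pool.Agent.Lib.MP_491cc4_lc.Decomp

set_option autoImplicit false

open Set Filter Cardinal

namespace Pool.Agent.Lib.MP_491cc4_lc

variable {K : Type}

/-- Fubini powers on lists -/
noncomputable def Pw (U : Ultrafilter K) (n : ℕ) : Ultrafilter (List K) :=
  Nat.iterate (fun W : Ultrafilter (List K) =>
    U.bind (fun a => Ultrafilter.map (List.cons a) W)) n (pure ([] : List K))

theorem Pw_succ (U : Ultrafilter K) (n : ℕ) :
    Pw U (n + 1) = U.bind (fun a => Ultrafilter.map (List.cons a) (Pw U n)) :=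
  Function.iterate_succ_apply' _ _ _

def Good (U : Ultrafilter K) {X : Type} (V : Ultrafilter X) : Prop :=
  ∃ n : ℕ, (∃ f : List K → X, Ultrafilter.map f (Pw U n) = V) ∧
    ∃ h : X → List K, Ultrafilter.map h V = Pw U n

theorem good_pure (U : Ultrafilter K) {X : Type} (x : X) : Good U (pure x : Ultrafilter X) :=
  ⟨0, ⟨fun _ => x, rfl⟩, ⟨fun _ => [], rfl⟩⟩

theorem good_bind {U : Ultrafilter K} {c : Cardinal.{0}} (hc : Cardinal.aleph0 < c)
    (hU : Cpl c (U : Filter K)) {X : Type} (p : X → K) (W : K → Ultrafilter X)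
    (hW : ∀ᶠ a in U, p ⁻¹' {a} ∈ W a ∧ Good U (W a)) : Good U (U.bind W) := by
  classical
  obtain ⟨a0, _, n0, ⟨f0, _⟩, _⟩ := hW.exists
  have h1 : ∀ a, ∃ (n : ℕ) (f : List K → X) (h : X → List K), Good U (W a) →
      Ultrafilter.map f (Pw U n) = W a ∧ Ultrafilter.map h (W a) = Pw U n := by
    intro a
    by_cases ha : Good U (W a)
    · obtain ⟨n, ⟨f, hf⟩, ⟨h, hh⟩⟩ := ha
      exact ⟨n, f, h, fun _ => ⟨hf, hh⟩⟩
    · exact ⟨0, f0, fun _ => [], fun h' => absurd h' ha⟩
  choose N f h hfh using h1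
  obtain ⟨n, hn⟩ := hU.const N Set.univ (by simpa using hc)
    (Filter.Eventually.of_forall (fun _ => trivial))
  refine ⟨n + 1, ⟨fun l => match l with
    | [] => f0 []
    | a :: l => f a l, ?_⟩, ⟨fun x => p x :: h (p x) x, ?_⟩⟩
  · ext Y
    rw [Ultrafilter.mem_map, Pw_succ, mem_bind_iff, mem_bind_iff]
    refine Filter.eventually_congr ?_
    filter_upwards [hW, hn] with a ha hna
    rw [← (hfh a ha.2).1, hna]
    rfl
  · ext Y
    rw [Ultrafilter.mem_map, Pw_succ, mem_bind_iff, mem_bind_iff]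
    refine Filter.eventually_congr ?_
    filter_upwards [hW, hn] with a ha hna
    rw [← hna, ← (hfh a ha.2).2, Ultrafilter.mem_map, Ultrafilter.mem_map]
    refine Filter.eventually_congr (p := fun x => p x :: h (p x) x ∈ Y)
      (q := fun x => a :: h a x ∈ Y) ?_
    filter_upwards [ha.1] with x hx
    have hx' : p x = a := hx
    rw [hx']

variable [LinearOrder K] [WellFoundedLT K]

theorem bad_step {U : Ultrafilter K} (h : NM U) {X : Type} {V : Ultrafilter X} (hT : Tk U V)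
    (hV : ¬ Good U V) :
    ∃ (p : X → K) (W : K → {W : Ultrafilter X // Tk U W ∧ ¬ Good U W}),
      V = U.bind (fun a => (W a).1) ∧ ∀ᶠ a in U, p ⁻¹' {a} ∈ (W a).1 := by
  classical
  obtain ⟨p, W, hVW, hW⟩ := decomp h hT (fun x hx => hV (hx ▸ good_pure U x))
  have h1 : ∀ᶠ a in U, ¬ Good U (W a) := by
    refine Ultrafilter.eventually_not.2 (fun h' => hV ?_)
    rw [hVW]
    refine good_bind h.unc h.cpl p W ?_
    filter_upwards [hW, h'] with a ha ha' using ⟨ha.1, ha'⟩
  refine ⟨p, fun a => if ha : Tk U (W a) ∧ ¬ Good U (W a) then ⟨W a, ha⟩ else ⟨V, hT, hV⟩, ?_, ?_⟩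
  · ext Y
    rw [mem_bind_iff]
    conv_lhs => rw [hVW, mem_bind_iff]
    refine Filter.eventually_congr ?_
    filter_upwards [hW, h1] with a ha ha'
    rw [dif_pos ⟨ha.2, ha'⟩]
  · filter_upwards [hW, h1] with a ha ha'
    rw [dif_pos ⟨ha.2, ha'⟩]
    exact ha.1

/-- an infinite tree of Rudin-Frolik decompositions over `U` -/
structure IsTree (U : Ultrafilter K) {X : Type} (W : List K → Ultrafilter X)
    (π : List K → X → K) : Prop where
  tk : ∀ l, Tk U (W l)
  sum : ∀ l, W l = U.bind (fun a => W (a :: l))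
  disc : ∀ l, ∀ᶠ a in U, π l ⁻¹' {a} ∈ W (a :: l)

theorem exists_tree {U : Ultrafilter K} (h : NM U) {X : Type} {V : Ultrafilter X} (hT : Tk U V)
    (hV : ¬ Good U V) :
    ∃ (W : List K → Ultrafilter X) (π : List K → X → K), W [] = V ∧ IsTree U W π ∧
      ∀ l, ¬ Good U (W l) := by
  choose p S hS1 hS2 using fun W : {W : Ultrafilter X // Tk U W ∧ ¬ Good U W} =>
    bad_step h W.2.1 W.2.2
  let T : List K → {W : Ultrafilter X // Tk U W ∧ ¬ Good U W} :=
    fun l => List.rec ⟨V, hT, hV⟩ (fun a _ W => S W a) l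
  exact ⟨fun l => (T l).1, fun l => p (T l), rfl, ⟨fun l => (T l).2.1, fun l => hS1 (T l),
    fun l => hS2 (T l)⟩, fun l => (T l).2.2⟩

end Pool.Agent.Lib.MP_491cc4_lc
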